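import Pool.Agent.T2H32.RRT.Stm

/-!
# Few classes (package CLS)
-/

set_option autoImplicit false

open Finset Filter Topology

namespace Pool.Agent.T2H32.RRT

open Pool.Agent.R920.CH Pool.Agent.R852.LK

theorem CLS_main (hA : FA) (hB : FB) (hG : GOO) : CLS := by
  intro θ κ ε hθ0 hθ1 hκ hε
  obtain ⟨A, hA0, hFB⟩ := hB θ κ hθ0 hθ1 hκ
  have hκ0 : 0 < κ := lt_trans (div_pos hθ0 (by linarith)) hκ
  filter_upwards [hFB, hA A ε hA0.le hε, hG θ hθ1, eventually_ge_atTop 1]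
    with n hfb hfa hgoo hn1 X hX1 hX F hF hsq
  have hn1' : (1 : ℝ) ≤ n := by exact_mod_cast hn1
  have hne : (1 : ℝ) ≤ (n : ℝ) ^ ε := Real.one_le_rpow hn1' hε.le
  have hXk : (1 : ℝ) ≤ X ^ κ := Real.one_le_rpow hX1 hκ0.le
  have hsum : ∀ f ∈ F, ((PR n).card : ℝ) / 2 ≤ ∑ p ∈ PR n, (ps f p : ℝ) := by
    intro f hf
    obtain ⟨h1, h2, h3⟩ := hF f hf
    refine hgoo f 1 (by simpa using h1) ?_ (by simpa using h3)
    have h4 : f * 1 ^ 2 = f := by ring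
    rw [h4]
    exact le_trans h2 hX
  have hfew : ∀ Y : ℝ, X ≤ Y → FewP n F Y := fun Y hY =>
    ⟨fun f hf => ⟨(hF f hf).1, le_trans (hF f hf).2.1 hY⟩, hsq, hsum⟩
  rcases le_total ((n : ℝ) ^ A) X with hXA | hXA
  · calc (F.card : ℝ) ≤ X ^ κ := hfb X hXA hX F (hfew X le_rfl)
      _ ≤ (n : ℝ) ^ ε * X ^ κ := le_mul_of_one_le_left (by positivity) hne
  · calc (F.card : ℝ) ≤ (n : ℝ) ^ ε := hfa F (hfew _ hXA)
      _ ≤ (n : ℝ) ^ ε * X ^ κ := le_mul_of_one_le_right (by positivity) hXk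

end Pool.Agent.T2H32.RRT
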