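import Pool.Agent.T2H32.RRT.Stm

set_option autoImplicit false

namespace Pool.Agent.T2H32.RRT

open Finset Filter Topology Pool.Agent.R920.CH Pool.Agent.R852.LK

/-- numbers `D = f s²` with `P ∣ s` -/
lemma fibP (X : ℝ) (f : ℤ) (hf : f ≠ 0) (P : ℕ) (hP : 0 < P) (S : Finset ℤ) (σ : ℤ → ℤ)
    (hS : ∀ D ∈ S, |(D : ℝ)| ≤ X ∧ 0 < σ D ∧ D = f * σ D ^ 2 ∧ (P : ℤ) ∣ σ D) :
    (S.card : ℝ) ≤ √X / P := by
  have hP' : (P : ℤ) ≠ 0 := by exact_mod_cast hP.ne'
  have hPr : (0 : ℝ) < P := by exact_mod_cast hP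
  have h := fib X (f * (P : ℤ) ^ 2) (mul_ne_zero hf (pow_ne_zero 2 hP')) S (fun D => σ D / P) (by
    intro D hD
    obtain ⟨h1, h2, h3, c, hc⟩ := hS D hD
    have h4 : σ D / (P : ℤ) = c := by rw [hc, Int.mul_ediv_cancel_left _ hP']
    refine ⟨h1, ?_, ?_⟩
    · show 0 < σ D / (P : ℤ)
      rw [h4]
      rw [hc] at h2
      exact (mul_pos_iff_of_pos_left (by exact_mod_cast hP)).mp h2
    · show D = f * (P : ℤ) ^ 2 * (σ D / (P : ℤ)) ^ 2
      rw [h4]
      conv_lhs => rw [h3, hc]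
      ring)
  refine h.trans ?_
  apply div_le_div_of_nonneg_left (Real.sqrt_nonneg _) hPr
  have hf1 : (1 : ℝ) ≤ |(f : ℝ)| := by
    have : (1 : ℤ) ≤ |f| := Int.one_le_abs hf
    exact_mod_cast this
  push_cast
  rw [abs_mul, abs_of_nonneg (by positivity : (0 : ℝ) ≤ (P : ℝ) ^ 2)]
  have h5 : (P : ℝ) = √((P : ℝ) ^ 2) := (Real.sqrt_sq hPr.le).symm
  conv_lhs => rw [h5]
  apply Real.sqrt_le_sqrt
  nlinarith [sq_nonneg (P : ℝ)]

/-- the three parts -/
lemma three {n : ℕ} (hn : 14 ≤ n) (ε X : ℝ) (hε : 0 < ε) (hε1 : ε ≤ 1 / 12)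
    (h2 : (2 : ℝ) ≤ (n : ℝ) ^ (ε / 4)) :
    3 * (n : ℝ) ^ (7 : ℝ) * (√X / (n : ℝ) ^ (12 : ℝ)) +
      ((n : ℝ) ^ (ε / 4) * (√X / (n : ℝ) ^ (2 * Real.exp (1 / 2) - ε / 2)) +
      n * (√X * (2 * (n : ℝ) ^ (-6 : ℝ)))) ≤ √X / (n : ℝ) ^ (2 * Real.exp (1 / 2) - ε) := by
  have hn0 : (0 : ℝ) < n := by positivity
  have hn1 : (1 : ℝ) ≤ n := by exact_mod_cast (by omega : 1 ≤ n)
  have hn14 : (14 : ℝ) ≤ n := by exact_mod_cast hn
  have hs : 0 ≤ √X := Real.sqrt_nonneg _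
  obtain ⟨he1, he2⟩ := Pool.Agent.R852.BC.exp_half_bounds
  set r := Real.exp (1 / 2) with hr
  have e1 : 3 * (n : ℝ) ^ (7 : ℝ) * (√X / (n : ℝ) ^ (12 : ℝ)) = √X * (3 * (n : ℝ) ^ (-5 : ℝ)) := by
    have : (n : ℝ) ^ (7 : ℝ) / (n : ℝ) ^ (12 : ℝ) = (n : ℝ) ^ (-5 : ℝ) := by
      rw [← Real.rpow_sub hn0]; norm_num
    rw [← this]; ring
  have e2 : (n : ℝ) ^ (ε / 4) * (√X / (n : ℝ) ^ (2 * r - ε / 2)) =
      √X * (n : ℝ) ^ (-(2 * r) + 3 * ε / 4) := by
    have : (n : ℝ) ^ (ε / 4) / (n : ℝ) ^ (2 * r - ε / 2) = (n : ℝ) ^ (-(2 * r) + 3 * ε / 4) := by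
      rw [← Real.rpow_sub hn0]; congr 1; ring
    rw [← this]; ring
  have e3 : (n : ℝ) * (√X * (2 * (n : ℝ) ^ (-6 : ℝ))) = √X * (2 * (n : ℝ) ^ (-5 : ℝ)) := by
    have : (n : ℝ) * (n : ℝ) ^ (-6 : ℝ) = (n : ℝ) ^ (-5 : ℝ) := by
      nth_rewrite 1 [← Real.rpow_one (n : ℝ)]
      rw [← Real.rpow_add hn0]; norm_num
    rw [← this]; ring
  have e4 : √X / (n : ℝ) ^ (2 * r - ε) = √X * (n : ℝ) ^ (-(2 * r) + ε) := by
    rw [div_eq_mul_inv, ← Real.rpow_neg hn0.le]; congr 2; ring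
  rw [e1, e2, e3, e4, ← mul_add, ← mul_add]
  apply mul_le_mul_of_nonneg_left _ hs
  have f1 : 2 * (n : ℝ) ^ (-(2 * r) + 3 * ε / 4) ≤ (n : ℝ) ^ (-(2 * r) + ε) := by
    have : (n : ℝ) ^ (-(2 * r) + ε) = (n : ℝ) ^ (ε / 4) * (n : ℝ) ^ (-(2 * r) + 3 * ε / 4) := by
      rw [← Real.rpow_add hn0]; congr 1; ring
    rw [this]
    exact mul_le_mul_of_nonneg_right h2 (by positivity)
  have f2 : 14 * (n : ℝ) ^ (-5 : ℝ) ≤ (n : ℝ) ^ (-(2 * r) + ε) := by
    have h1 : (n : ℝ) * (n : ℝ) ^ (-5 : ℝ) = (n : ℝ) ^ (-4 : ℝ) := by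
      nth_rewrite 1 [← Real.rpow_one (n : ℝ)]
      rw [← Real.rpow_add hn0]; norm_num
    have h3 : 14 * (n : ℝ) ^ (-5 : ℝ) ≤ (n : ℝ) ^ (-4 : ℝ) := by
      rw [← h1]
      exact mul_le_mul_of_nonneg_right hn14 (by positivity)
    refine h3.trans ?_
    apply Real.rpow_le_rpow_of_exponent_le hn1
    linarith
  have f3 : 0 < (n : ℝ) ^ (-(2 * r) + ε) := Real.rpow_pos_of_pos hn0 _
  linarith

theorem CNT_main (hA : FA) (hB : FB) (hG : GOO) (hS : SMA) : CNT := by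
  classical
  intro ε hε
  wlog hε1 : ε ≤ 1 / 12 generalizing ε
  · filter_upwards [this (1 / 12) (by norm_num) le_rfl, eventually_ge_atTop 1]
      with n hn hn1 X hX0 hX S hSS
    have hn1' : (1 : ℝ) ≤ n := by exact_mod_cast hn1
    push Not at hε1
    have h1 := hn X hX0 (hX.trans (Real.exp_le_exp.2
      (Real.rpow_le_rpow_of_exponent_le hn1' (by linarith)))) S hSS
    refine h1.trans ?_
    apply div_le_div_of_nonneg_left (Real.sqrt_nonneg _) (by positivity)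
    exact Real.rpow_le_rpow_of_exponent_le hn1' (by linarith)
  obtain ⟨he1, he2⟩ := Pool.Agent.R852.BC.exp_half_bounds
  set r := Real.exp (1 / 2) with hr
  -- parameters
  set θ : ℝ := 1 / 3 - ε / 2 with hθ
  have hθ0 : 0 < θ := by rw [hθ]; linarith
  have hθ1 : θ < 1 := by rw [hθ]; linarith
  have hq : θ / (1 - θ) < 1 / 2 := by
    rw [div_lt_iff₀ (by linarith)]; rw [hθ]; linarith
  set η : ℝ := (1 / 2 - θ / (1 - θ)) / 2 with hη
  have hη0 : 0 < η := by rw [hη]; linarith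
  set κ : ℝ := 1 / 2 - η with hκ
  have hκ1 : θ / (1 - θ) < κ := by rw [hκ, hη]; linarith
  obtain ⟨A0, hA0, hB'⟩ := hB θ κ hθ0 hθ1 hκ1
  set A : ℝ := max A0 (6 / η) with hAdef
  have hA1 : A0 ≤ A := le_max_left _ _
  have hA2 : 6 ≤ A * η := by
    have : 6 / η ≤ A := le_max_right _ _
    rwa [div_le_iff₀ hη0] at this
  have hApos : 0 < A := lt_of_lt_of_le hA0 hA1
  have t2 : ∀ᶠ n : ℕ in atTop, (2 : ℝ) ≤ (n : ℝ) ^ (ε / 4) :=
    tendsto_natCast_atTop_atTop.eventually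
      ((tendsto_rpow_atTop (by positivity : (0 : ℝ) < ε / 4)).eventually_ge_atTop _)
  filter_upwards [hA A (ε / 4) hApos.le (by positivity), hB', hG (1 / 3 - ε) (by linarith),
    hS ε hε, t2, eventually_ge_atTop 14] with n hFA hFB hGO hSM h2 hn14 X hX0 hXe S hSS
  have hn0 : (0 : ℝ) < n := by positivity
  have hn1 : (1 : ℝ) ≤ n := by exact_mod_cast (by omega : 1 ≤ n)
  have hn14' : (14 : ℝ) ≤ n := by exact_mod_cast hn14
  have hsX : 0 ≤ √X := Real.sqrt_nonneg _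
  have hne : ∀ D ∈ S, D ≠ 0 := by
    rintro D hD rfl
    exact (hSS 0 hD).2.1 ⟨0, by ring⟩
  choose! ka σ h1 h2' h3 using sqf
  -- properties of the squarefree parts
  have hF : ∀ f ∈ S.image ka, Squarefree f ∧ f ≠ 0 ∧ ¬ IsSquare f ∧ |(f : ℝ)| ≤ X ∧
      ((PR n).card : ℝ) / 2 ≤ ∑ p ∈ PR n, (ps f p : ℝ) := by
    intro f hf
    obtain ⟨D, hD, rfl⟩ := Finset.mem_image.mp hf
    obtain ⟨g1, g2, g3⟩ := hSS D hD
    have hD0 := hne D hD
    have hsf := h1 D hD0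
    have hs0 := h2' D hD0
    have hDe := h3 D hD0
    refine ⟨hsf, hsf.ne_zero, ?_, ?_, ?_⟩
    · rintro ⟨t, ht⟩
      apply g2
      refine ⟨t * σ D, ?_⟩
      calc D = ka D * σ D ^ 2 := hDe
        _ = t * t * σ D ^ 2 := by rw [← ht]
        _ = _ := by ring
    · refine le_trans ?_ g1
      have h5 : |ka D| ≤ |D| := by
        conv_rhs => rw [hDe]
        rw [abs_mul, abs_pow]
        have : (1 : ℤ) ≤ |σ D| := Int.one_le_abs hs0.ne'
        exact le_mul_of_one_le_right (abs_nonneg _) (one_le_pow₀ this)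
      exact_mod_cast h5
    · apply hGO (ka D) (σ D)
      · rw [← hDe]; exact hD0
      · rw [← hDe]; exact g1.trans hXe
      · rw [← hDe]; exact g3
  have hFF : ∀ f ∈ S.image ka, ∀ g ∈ S.image ka, f ≠ g → ¬ IsSquare (f * g) := by
    intro f hf g hg hfg hsq
    exact hfg (sq_prod f g (hF f hf).1 (hF g hg).1 hsq)
  set c : ℤ → ℝ := fun f => ((S.filter fun D => ka D = f).card : ℝ) with hc
  have hfib : ∀ f ∈ S.image ka, c f ≤ √X / √|(f : ℝ)| := by
    intro f hf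
    refine fib X f (hF f hf).2.1 (S.filter fun D => ka D = f) σ ?_
    intro D hD
    rw [Finset.mem_filter] at hD
    refine ⟨(hSS D hD.1).1, h2' D (hne D hD.1), ?_⟩
    have := h3 D (hne D hD.1)
    rwa [hD.2] at this
  have hsum : (S.card : ℝ) = ∑ f ∈ S.image ka, c f := by
    have := Finset.card_eq_sum_card_image ka S
    show (S.card : ℝ) = ∑ f ∈ S.image ka, ((S.filter fun D => ka D = f).card : ℝ)
    exact_mod_cast this
  rw [hsum]
  rw [← Finset.sum_filter_add_sum_filter_not (S.image ka)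
    (fun f : ℤ => |(f : ℝ)| ≤ (n : ℝ) ^ (4 * r - ε))]
  rw [← Finset.sum_filter_add_sum_filter_not ((S.image ka).filter
    fun f : ℤ => ¬ |(f : ℝ)| ≤ (n : ℝ) ^ (4 * r - ε)) (fun f : ℤ => |(f : ℝ)| ≤ (n : ℝ) ^ A)]
  refine le_trans ?_ (three hn14 ε X hε hε1 h2)
  apply add_le_add
  · -- small f
    set F1 := (S.image ka).filter (fun f : ℤ => |(f : ℝ)| ≤ (n : ℝ) ^ (4 * r - ε)) with hF1
    have hb : ∀ f ∈ F1, c f ≤ √X / (n : ℝ) ^ (12 : ℝ) := by
      intro f hf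
      rw [hF1, Finset.mem_filter] at hf
      obtain ⟨P, hP1, hP2⟩ := hSM f (hF f hf.1).2.2.1 hf.2
      have hP0 : 0 < P := by
        have : (0 : ℝ) < P := lt_of_lt_of_le (by positivity) hP1
        exact_mod_cast this
      have h4 := fibP X f (hF f hf.1).2.1 P hP0 (S.filter fun D => ka D = f) σ (by
        intro D hD
        rw [Finset.mem_filter] at hD
        have h5 : D = f * σ D ^ 2 := by
          have := h3 D (hne D hD.1)
          rwa [hD.2] at this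
        refine ⟨(hSS D hD.1).1, h2' D (hne D hD.1), h5, hP2 _ ?_⟩
        rw [← h5]; exact (hSS D hD.1).2.2)
      exact h4.trans (div_le_div_of_nonneg_left hsX (by positivity) hP1)
    have hcard : (F1.card : ℝ) ≤ 3 * (n : ℝ) ^ (7 : ℝ) := by
      have hsub : F1 ⊆ Finset.Icc (-((n : ℤ) ^ 7)) ((n : ℤ) ^ 7) := by
        intro f hf
        rw [hF1, Finset.mem_filter] at hf
        have h4 : |(f : ℝ)| ≤ (n : ℝ) ^ 7 := by
          refine hf.2.trans ?_
          rw [← Real.rpow_natCast]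
          apply Real.rpow_le_rpow_of_exponent_le hn1
          push_cast
          linarith
        have h5 : |f| ≤ (n : ℤ) ^ 7 := by exact_mod_cast h4
        rw [Finset.mem_Icc]
        exact abs_le.mp h5
      have h4 := card_le_card hsub
      rw [Int.card_Icc] at h4
      have h5 : (((n : ℤ) ^ 7 + 1 - -((n : ℤ) ^ 7)).toNat : ℤ) = 2 * (n : ℤ) ^ 7 + 1 := by
        have h50 : (0 : ℤ) ≤ (n : ℤ) ^ 7 := by positivity
        rw [Int.toNat_of_nonneg (by linarith)]; ring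
      have h6 : (F1.card : ℝ) ≤ 2 * (n : ℝ) ^ 7 + 1 := by
        have : (F1.card : ℤ) ≤ 2 * (n : ℤ) ^ 7 + 1 := by rw [← h5]; exact_mod_cast h4
        exact_mod_cast this
      have h7 : (1 : ℝ) ≤ (n : ℝ) ^ 7 := one_le_pow₀ hn1
      have h8 : (n : ℝ) ^ (7 : ℝ) = (n : ℝ) ^ 7 := by
        rw [← Real.rpow_natCast]; norm_num
      rw [h8]; linarith
    calc ∑ f ∈ F1, c f ≤ ∑ _f ∈ F1, √X / (n : ℝ) ^ (12 : ℝ) := sum_le_sum hb
      _ = (F1.card : ℝ) * (√X / (n : ℝ) ^ (12 : ℝ)) := by rw [sum_const, nsmul_eq_mul]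
      _ ≤ _ := mul_le_mul_of_nonneg_right hcard (by positivity)
  apply add_le_add
  · -- middle f
    set F2 := ((S.image ka).filter fun f : ℤ => ¬ |(f : ℝ)| ≤ (n : ℝ) ^ (4 * r - ε)).filter
      (fun f : ℤ => |(f : ℝ)| ≤ (n : ℝ) ^ A) with hF2
    have hmem : ∀ f ∈ F2, f ∈ S.image ka ∧ (n : ℝ) ^ (4 * r - ε) < |(f : ℝ)| ∧
        |(f : ℝ)| ≤ (n : ℝ) ^ A := by
      intro f hf
      rw [hF2, Finset.mem_filter, Finset.mem_filter] at hf
      exact ⟨hf.1.1, not_le.mp hf.1.2, hf.2⟩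
    have hcard : (F2.card : ℝ) ≤ (n : ℝ) ^ (ε / 4) := by
      apply hFA
      refine ⟨fun f hf => ⟨(hF f (hmem f hf).1).2.1, (hmem f hf).2.2⟩, ?_, ?_⟩
      · intro f hf g hg
        exact hFF f (hmem f hf).1 g (hmem g hg).1
      · intro f hf
        exact (hF f (hmem f hf).1).2.2.2.2
    have hb : ∀ f ∈ F2, c f ≤ √X / (n : ℝ) ^ (2 * r - ε / 2) := by
      intro f hf
      refine (hfib f (hmem f hf).1).trans ?_
      apply div_le_div_of_nonneg_left hsX (by positivity)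
      have e : (n : ℝ) ^ (2 * r - ε / 2) = √((n : ℝ) ^ (4 * r - ε)) := by
        rw [Real.sqrt_eq_rpow, ← Real.rpow_mul hn0.le]; congr 1; ring
      rw [e]
      exact Real.sqrt_le_sqrt (hmem f hf).2.1.le
    calc ∑ f ∈ F2, c f ≤ ∑ _f ∈ F2, √X / (n : ℝ) ^ (2 * r - ε / 2) := sum_le_sum hb
      _ = (F2.card : ℝ) * (√X / (n : ℝ) ^ (2 * r - ε / 2)) := by rw [sum_const, nsmul_eq_mul]
      _ ≤ _ := mul_le_mul_of_nonneg_right hcard (by positivity)
  · -- large f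
    set F3 := ((S.image ka).filter fun f : ℤ => ¬ |(f : ℝ)| ≤ (n : ℝ) ^ (4 * r - ε)).filter
      (fun f : ℤ => ¬ |(f : ℝ)| ≤ (n : ℝ) ^ A) with hF3
    have hmem : ∀ f ∈ F3, f ∈ S.image ka ∧ (n : ℝ) ^ A < |(f : ℝ)| := by
      intro f hf
      rw [hF3, Finset.mem_filter, Finset.mem_filter] at hf
      exact ⟨hf.1.1, not_le.mp hf.2⟩
    have hlo : ∀ f ∈ F3, (2 : ℝ) ^ (Nat.log 2 f.natAbs) ≤ |(f : ℝ)| := by
      intro f hf
      have h4 : 2 ^ (Nat.log 2 f.natAbs) ≤ f.natAbs :=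
        Nat.pow_log_le_self 2 (Int.natAbs_ne_zero.mpr (hF f (hmem f hf).1).2.1)
      have h5 : ((2 ^ (Nat.log 2 f.natAbs) : ℕ) : ℝ) ≤ (f.natAbs : ℝ) := by exact_mod_cast h4
      rw [Nat.cast_natAbs, Int.cast_abs] at h5
      push_cast at h5
      exact h5
    have hhi : ∀ f ∈ F3, |(f : ℝ)| < (2 : ℝ) ^ (Nat.log 2 f.natAbs + 1) := by
      intro f hf
      have h4 : f.natAbs < 2 ^ (Nat.log 2 f.natAbs + 1) := Nat.lt_pow_succ_log_self (by norm_num) _
      have h5 : (f.natAbs : ℝ) < ((2 ^ (Nat.log 2 f.natAbs + 1) : ℕ) : ℝ) := by exact_mod_cast h4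
      rw [Nat.cast_natAbs, Int.cast_abs] at h5
      push_cast at h5
      exact h5
    have hmaps : ∀ f ∈ F3, Nat.log 2 f.natAbs ∈ range n := by
      intro f hf
      rw [mem_range]
      by_contra hcon
      push Not at hcon
      have h4 : (2 : ℝ) ^ n ≤ |(f : ℝ)| :=
        (pow_le_pow_right₀ (by norm_num) hcon).trans (hlo f hf)
      have h5 : (2 : ℝ) ^ n ≤ Real.exp ((n : ℝ) ^ (1 / 3 - ε)) :=
        h4.trans ((hF f (hmem f hf).1).2.2.2.1.trans hXe)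
      have h6 : (n : ℝ) * Real.log 2 ≤ (n : ℝ) ^ (1 / 3 - ε) := by
        have := Real.log_le_log (by positivity) h5
        rwa [Real.log_pow, Real.log_exp] at this
      have h7 : (n : ℝ) ^ (1 / 3 - ε) ≤ (n : ℝ) ^ (1 / 2 : ℝ) :=
        Real.rpow_le_rpow_of_exponent_le hn1 (by linarith)
      have h8 : (n : ℝ) ^ (1 / 2 : ℝ) * (n : ℝ) ^ (1 / 2 : ℝ) = n := by
        rw [← Real.rpow_add hn0]; norm_num
      have h9 := Real.log_two_gt_d9
      have h10 : (3 : ℝ) ≤ (n : ℝ) ^ (1 / 2 : ℝ) := by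
        by_contra h
        push Not at h
        have : 0 ≤ (n : ℝ) ^ (1 / 2 : ℝ) := by positivity
        nlinarith
      nlinarith
    rw [← Finset.sum_fiberwise_of_maps_to hmaps]
    have hj : ∀ j ∈ range n, ∑ f ∈ F3.filter (fun f => Nat.log 2 f.natAbs = j), c f ≤
        √X * (2 * (n : ℝ) ^ (-6 : ℝ)) := by
      intro j _
      set G := F3.filter (fun f => Nat.log 2 f.natAbs = j) with hGdef
      rcases G.eq_empty_or_nonempty with h0 | ⟨f0, hf0⟩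
      · rw [h0, sum_empty]; positivity
      have hGm : ∀ f ∈ G, f ∈ F3 ∧ Nat.log 2 f.natAbs = j := by
        intro f hf
        rwa [hGdef, Finset.mem_filter] at hf
      set Y : ℝ := (2 : ℝ) ^ (j + 1) with hY
      have hY0 : 0 < Y := by positivity
      have hYA : (n : ℝ) ^ A ≤ Y := by
        obtain ⟨g1, g2⟩ := hGm f0 hf0
        have := hhi f0 g1
        rw [g2] at this
        exact ((hmem f0 g1).2.trans this).le
      have hYX : Y ≤ Real.exp ((n : ℝ) ^ θ) := by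
        obtain ⟨g1, g2⟩ := hGm f0 hf0
        have g3 := hlo f0 g1
        rw [g2] at g3
        have g4 : Y ≤ 2 * X := by
          rw [hY, pow_succ]
          have := (hF f0 (hmem f0 g1).1).2.2.2.1
          linarith
        have g5 : (2 : ℝ) ≤ Real.exp 1 := by linarith [Real.exp_one_gt_d9]
        have g6 : 1 + (n : ℝ) ^ (1 / 3 - ε) ≤ (n : ℝ) ^ θ := by
          have k1 : (n : ℝ) ^ θ = (n : ℝ) ^ (1 / 3 - ε) * (n : ℝ) ^ (ε / 2) := by
            rw [← Real.rpow_add hn0]; congr 1; rw [hθ]; ring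
          have k2 : (2 : ℝ) ≤ (n : ℝ) ^ (ε / 2) :=
            h2.trans (Real.rpow_le_rpow_of_exponent_le hn1 (by linarith))
          have k3 : (1 : ℝ) ≤ (n : ℝ) ^ (1 / 3 - ε) := Real.one_le_rpow hn1 (by linarith)
          rw [k1]; nlinarith
        calc Y ≤ 2 * X := g4
          _ ≤ Real.exp 1 * Real.exp ((n : ℝ) ^ (1 / 3 - ε)) :=
              mul_le_mul g5 hXe hX0 (Real.exp_pos _).le
          _ = Real.exp (1 + (n : ℝ) ^ (1 / 3 - ε)) := (Real.exp_add _ _).symm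
          _ ≤ _ := Real.exp_le_exp.2 g6
      have hcard : (G.card : ℝ) ≤ Y ^ κ := by
        apply hFB Y ((Real.rpow_le_rpow_of_exponent_le hn1 hA1).trans hYA) hYX
        refine ⟨fun f hf => ⟨(hF f (hmem f (hGm f hf).1).1).2.1, ?_⟩, ?_, ?_⟩
        · obtain ⟨g1, g2⟩ := hGm f hf
          have := hhi f g1
          rw [g2] at this
          exact this.le
        · intro f hf g hg
          exact hFF f (hmem f (hGm f hf).1).1 g (hmem g (hGm g hg).1).1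
        · intro f hf
          exact (hF f (hmem f (hGm f hf).1).1).2.2.2.2
      have hb : ∀ f ∈ G, c f ≤ √X * (2 * Y ^ (-(1 / 2) : ℝ)) := by
        intro f hf
        obtain ⟨g1, g2⟩ := hGm f hf
        refine (hfib f (hmem f g1).1).trans ?_
        rw [div_eq_mul_inv]
        apply mul_le_mul_of_nonneg_left _ hsX
        have g3 := hlo f g1
        rw [g2] at g3
        have g4 : Y / 4 ≤ |(f : ℝ)| := by
          rw [hY, pow_succ]
          have : (0 : ℝ) < 2 ^ j := by positivity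
          linarith
        have g5 : √(Y / 4) = Y ^ (1 / 2 : ℝ) / 2 := by
          rw [Real.sqrt_div' _ (by norm_num : (0 : ℝ) ≤ 4), Real.sqrt_eq_rpow,
            show (4 : ℝ) = 2 ^ 2 by norm_num, Real.sqrt_sq (by norm_num)]
        have g6 : Y ^ (1 / 2 : ℝ) / 2 ≤ √|(f : ℝ)| := by
          rw [← g5]; exact Real.sqrt_le_sqrt g4
        have g7 : 0 < Y ^ (1 / 2 : ℝ) / 2 := by positivity
        calc (√|(f : ℝ)|)⁻¹ ≤ (Y ^ (1 / 2 : ℝ) / 2)⁻¹ := inv_anti₀ g7 g6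
          _ = 2 * Y ^ (-(1 / 2) : ℝ) := by
              rw [Real.rpow_neg hY0.le, inv_div, div_eq_mul_inv]
      calc ∑ f ∈ G, c f ≤ ∑ _f ∈ G, √X * (2 * Y ^ (-(1 / 2) : ℝ)) := sum_le_sum hb
        _ = (G.card : ℝ) * (√X * (2 * Y ^ (-(1 / 2) : ℝ))) := by rw [sum_const, nsmul_eq_mul]
        _ ≤ Y ^ κ * (√X * (2 * Y ^ (-(1 / 2) : ℝ))) :=
            mul_le_mul_of_nonneg_right hcard (by positivity)
        _ = √X * (2 * Y ^ (-η)) := by
            have : Y ^ κ * Y ^ (-(1 / 2) : ℝ) = Y ^ (-η) := by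
              rw [← Real.rpow_add hY0]; congr 1; rw [hκ]; ring
            rw [← this]; ring
        _ ≤ √X * (2 * (n : ℝ) ^ (-6 : ℝ)) := by
            apply mul_le_mul_of_nonneg_left _ hsX
            apply mul_le_mul_of_nonneg_left _ (by norm_num)
            calc Y ^ (-η) ≤ ((n : ℝ) ^ A) ^ (-η) :=
                  Real.rpow_le_rpow_of_nonpos (by positivity) hYA (by linarith)
              _ = (n : ℝ) ^ (-(A * η)) := by
                  rw [← Real.rpow_mul hn0.le]; congr 1; ring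
              _ ≤ (n : ℝ) ^ (-6 : ℝ) :=
                  Real.rpow_le_rpow_of_exponent_le hn1 (by linarith)
    calc ∑ j ∈ range n, ∑ f ∈ F3.filter (fun f => Nat.log 2 f.natAbs = j), c f
        ≤ ∑ _j ∈ range n, √X * (2 * (n : ℝ) ^ (-6 : ℝ)) := sum_le_sum hj
      _ = n * (√X * (2 * (n : ℝ) ^ (-6 : ℝ))) := by rw [sum_const, card_range, nsmul_eq_mul]

end Pool.Agent.T2H32.RRT
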