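import Pool.Agent.T2H32.RRT.Stm

set_option autoImplicit false

namespace Pool.Agent.T2H32.RRT

open Finset Filter Topology Pool.Agent.R920.CH Pool.Agent.R852.LK

lemma FA_W (hPV : PV) (Y : ℝ) (hY : 0 ≤ Y) (F : Finset ℤ)
    (h1 : ∀ f ∈ F, f ≠ 0 ∧ |(f : ℝ)| ≤ Y) (h2 : ∀ f ∈ F, ∀ g ∈ F, f ≠ g → ¬ IsSquare (f * g)) :
    ∀ f ∈ F, ∀ g ∈ F, f ≠ g → ∀ M : ℕ, |((∑ m ∈ range M, ps (f * g) m : ℤ) : ℝ)| ≤
      8 * Y * (1 + Real.log (4 * Y ^ 2)) := by
  intro f hf g hg hfg M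
  have hf0 := (h1 f hf).1
  have hg0 := (h1 g hg).1
  have hD0 : f * g ≠ 0 := mul_ne_zero hf0 hg0
  refine (hPV (f * g) hD0 (h2 f hf g hg hfg) M).trans ?_
  have h3 : |((f * g : ℤ) : ℝ)| ≤ Y ^ 2 := by
    push_cast
    rw [abs_mul, sq]
    exact mul_le_mul (h1 f hf).2 (h1 g hg).2 (abs_nonneg _) hY
  have h4 : (1 : ℝ) ≤ |((f * g : ℤ) : ℝ)| := by
    have : (1 : ℤ) ≤ |f * g| := Int.one_le_abs hD0
    exact_mod_cast this
  have h5 : √|((f * g : ℤ) : ℝ)| ≤ Y := by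
    rw [Real.sqrt_le_left hY]
    exact h3
  have h6 : Real.log (4 * |((f * g : ℤ) : ℝ)|) ≤ Real.log (4 * Y ^ 2) :=
    Real.log_le_log (by linarith) (by linarith)
  have h7 : 0 ≤ Real.log (4 * |((f * g : ℤ) : ℝ)|) := Real.log_nonneg (by linarith)
  apply mul_le_mul (by linarith) (by linarith) (by linarith) (by linarith)

theorem FA_main (hPV : PV) (hI : INE) : FA := by
  intro A ε hA hε
  set B : ℕ := ⌈A⌉₊ + 3 with hB
  have hBA : A + 3 ≤ (B : ℝ) := by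
    rw [hB]; push_cast
    linarith [Nat.le_ceil A]
  have hB3 : (3 : ℝ) ≤ B := by linarith
  set δ : ℝ := min ε 1 / (2 * B) with hδ
  have hm0 : 0 < min ε 1 := lt_min hε one_pos
  have hδ0 : 0 < δ := by positivity
  have hδB : δ * B = min ε 1 / 2 := by rw [hδ]; field_simp
  have hδε : δ * B ≤ ε / 2 := by rw [hδB]; linarith [min_le_left ε 1]
  have hδh : δ * B ≤ 1 / 2 := by rw [hδB]; linarith [min_le_right ε 1]
  have hδ1 : δ ≤ 1 / 2 := by nlinarith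
  set c : ℝ := (4 * B : ℝ) ^ B with hc
  have hc0 : 0 < c := by positivity
  have e1 : ∀ᶠ y : ℕ in atTop, 4 * c ≤ (y : ℝ) ^ (ε / 2) :=
    tendsto_natCast_atTop_atTop.eventually
      ((tendsto_rpow_atTop (by positivity : (0 : ℝ) < ε / 2)).eventually_ge_atTop _)
  have e2 : ∀ᶠ y : ℕ in atTop, 2 * c ≤ (y : ℝ) :=
    tendsto_natCast_atTop_atTop.eventually_ge_atTop _
  have e4 : ∀ᶠ y : ℕ in atTop, 16 * (1 + Real.log 4) ≤ (y : ℝ) :=
    tendsto_natCast_atTop_atTop.eventually_ge_atTop _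
  have e3 : ∀ᶠ y : ℕ in atTop, Real.log (y : ℝ) ≤ (1 / (32 * (A + 1))) * (y : ℝ) := by
    have h := Real.isLittleO_log_id_atTop.bound (by positivity : (0 : ℝ) < 1 / (32 * (A + 1)))
    filter_upwards [tendsto_natCast_atTop_atTop.eventually h, eventually_ge_atTop 1] with y hy hy1
    rw [Real.norm_of_nonneg (Real.log_nonneg (by exact_mod_cast hy1))] at hy
    simpa using hy
  filter_upwards [card_PR δ hδ0 (by linarith), e1, e2, e3, e4, eventually_ge_atTop 1]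
    with y hK h4c h8c hlog hl4 hy1 F hF
  obtain ⟨hX, hFF, hfew⟩ := hF
  have hy0 : (0 : ℝ) < y := by exact_mod_cast hy1
  have hyone : (1 : ℝ) ≤ y := by exact_mod_cast hy1
  have hPR : ∀ p ∈ PR y, p < y ∧ p.Prime := by
    intro p hp
    rw [mem_PR] at hp
    exact ⟨hp.1, hp.2.1⟩
  set K : ℝ := ((PR y).card : ℝ) with hKdef
  have hK0 : 0 < K := lt_of_lt_of_le (Real.rpow_pos_of_pos hy0 _) hK
  have hKB : 0 < K ^ B := by positivity
  set Y : ℝ := (y : ℝ) ^ A with hY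
  have hY0 : 0 < Y := Real.rpow_pos_of_pos hy0 _
  have hY1 : 1 ≤ Y := Real.one_le_rpow hyone hA
  have hlY : Real.log (4 * Y ^ 2) = Real.log 4 + 2 * A * Real.log y := by
    rw [Real.log_mul (by norm_num) (by positivity), Real.log_pow, hY, Real.log_rpow hy0]
    push_cast; ring
  have hW1 : 8 * (1 + Real.log (4 * Y ^ 2)) ≤ y := by
    rw [hlY]
    have h1 : 2 * A * Real.log y ≤ y / 16 := by
      have h2 : 2 * A * Real.log y ≤ 2 * A * ((1 / (32 * (A + 1))) * (y : ℝ)) :=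
        mul_le_mul_of_nonneg_left hlog (by positivity)
      have h3 : 2 * A * (1 / (32 * (A + 1))) ≤ 1 / 16 := by
        rw [mul_one_div, div_le_div_iff₀ (by positivity) (by norm_num)]
        nlinarith
      nlinarith
    linarith
  have hlY0 : 0 ≤ Real.log (4 * Y ^ 2) := Real.log_nonneg (by nlinarith)
  set W : ℝ := 8 * Y * (1 + Real.log (4 * Y ^ 2)) with hW
  have hW0 : 0 ≤ W := by positivity
  have hWY : W ≤ Y * y := by
    calc W = Y * (8 * (1 + Real.log (4 * Y ^ 2))) := by rw [hW]; ring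
      _ ≤ Y * y := mul_le_mul_of_nonneg_left hW1 hY0.le
  have s2 : (y : ℝ) ^ (A + 2) ≤ K ^ B := by
    have h1 : (y : ℝ) ^ ((1 - δ) * B) ≤ K ^ B := by
      rw [Real.rpow_mul hy0.le, Real.rpow_natCast]
      exact pow_le_pow_left₀ (by positivity) hK _
    refine (Real.rpow_le_rpow_of_exponent_le hyone ?_).trans h1
    nlinarith
  have s3 : 2 * (4 * (B : ℝ)) ^ B * W ≤ K ^ B := by
    have h1 : (y : ℝ) ^ (A + 2) = Y * y * y := by
      rw [Real.rpow_add hy0, hY, Real.rpow_two]; ring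
    rw [h1] at s2
    calc 2 * (4 * (B : ℝ)) ^ B * W = (2 * c) * W := by rw [hc]
      _ ≤ y * (Y * y) := mul_le_mul h8c hWY hW0 hy0.le
      _ = Y * y * y := by ring
      _ ≤ K ^ B := s2
  have s6 := hI B y (PR y) hy1 (fun p hp => (hPR p hp).2) (fun p hp => (hPR p hp).1.le) F W hW0
    (FA_W hPV Y hY0.le F hX hFF) hfew s3
  have s4 : (y : ℝ) ^ B ≤ K ^ B * (y : ℝ) ^ (ε / 2) := by
    have h1 : (y : ℝ) ^ ((1 - δ) * B) ≤ K ^ B := by
      rw [Real.rpow_mul hy0.le, Real.rpow_natCast]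
      exact pow_le_pow_left₀ (by positivity) hK _
    have h2 : (y : ℝ) ^ B = (y : ℝ) ^ ((1 - δ) * B) * (y : ℝ) ^ (δ * B) := by
      rw [← Real.rpow_add hy0, ← Real.rpow_natCast]; congr 1; ring
    rw [h2]
    apply mul_le_mul h1 _ (by positivity) hKB.le
    exact Real.rpow_le_rpow_of_exponent_le hyone hδε
  have s7 : (F.card : ℝ) * K ^ B ≤ (4 * c * (y : ℝ) ^ (ε / 2)) * K ^ B := by
    calc (F.card : ℝ) * K ^ B ≤ 4 * c * (y : ℝ) ^ B := s6
      _ ≤ 4 * c * (K ^ B * (y : ℝ) ^ (ε / 2)) := by gcongr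
      _ = _ := by ring
  have s8 := le_of_mul_le_mul_right s7 hKB
  calc (F.card : ℝ) ≤ 4 * c * (y : ℝ) ^ (ε / 2) := s8
    _ ≤ (y : ℝ) ^ (ε / 2) * (y : ℝ) ^ (ε / 2) := by gcongr
    _ = (y : ℝ) ^ ε := by rw [← Real.rpow_add hy0]; congr 1; ring

end Pool.Agent.T2H32.RRT
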