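import Pool.Agent.T2H32.RRT.Stm

set_option autoImplicit false

namespace Pool.Agent.T2H32.RRT

open Finset Filter Topology Pool.Agent.R920.CH Pool.Agent.R852.LK

namespace FBh

lemma choose_delta (θ κ : ℝ) (h1 : θ < 1) (hκ : θ / (1 - θ) < κ) :
    ∃ δ : ℝ, 0 < δ ∧ δ < (1 - θ) / 4 ∧ (θ + 2 * δ) * ((1 + 2 * δ) / (1 - θ - 2 * δ)) < κ := by
  have hc : ContinuousAt (fun δ : ℝ => (θ + 2 * δ) * ((1 + 2 * δ) / (1 - θ - 2 * δ))) 0 := by
    refine ContinuousAt.mul (by fun_prop) (ContinuousAt.div (by fun_prop) (by fun_prop) ?_)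
    simp only [mul_zero, sub_zero]
    linarith
  have h0 : (fun δ : ℝ => (θ + 2 * δ) * ((1 + 2 * δ) / (1 - θ - 2 * δ))) 0 < κ := by
    simp only [mul_zero, sub_zero, add_zero]
    rw [mul_one_div]
    exact hκ
  have h2 := hc.eventually_lt_const h0
  have h3 : ∀ᶠ δ : ℝ in 𝓝[>] (0 : ℝ), (θ + 2 * δ) * ((1 + 2 * δ) / (1 - θ - 2 * δ)) < κ :=
    h2.filter_mono nhdsWithin_le_nhds
  have h4 : ∀ᶠ δ : ℝ in 𝓝[>] (0 : ℝ), δ ∈ Set.Ioo (0 : ℝ) ((1 - θ) / 4) :=
    Ioo_mem_nhdsGT (by linarith)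
  obtain ⟨δ, hδ1, hδ2⟩ := (h3.and h4).exists
  exact ⟨δ, hδ2.1, hδ2.2, hδ1⟩

end FBh

theorem FB_main (hPV : PV) (hI : INE) : FB := by
  intro θ κ hθ0 hθ1 hκ
  obtain ⟨δ, hδ0, hδ1, hδκ⟩ := FBh.choose_delta θ κ hθ1 hκ
  set a : ℝ := 1 - θ - 2 * δ with ha
  have ha0 : 0 < a := by rw [ha]; linarith
  set g : ℝ := (θ + 2 * δ) * ((1 + 2 * δ) / a) with hg
  set A : ℝ := max 1 ((θ + 2 * δ + 1) / (κ - g)) with hA
  have hA1 : 1 ≤ A := le_max_left _ _
  have hA0 : 0 < A := by linarith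
  have hκg : 0 < κ - g := by linarith
  have hAg : g + (θ + 2 * δ + 1) / A ≤ κ := by
    have h1 : (θ + 2 * δ + 1) / (κ - g) ≤ A := le_max_right _ _
    rw [div_le_iff₀ hκg] at h1
    have h2 : (θ + 2 * δ + 1) / A ≤ κ - g := by
      rw [div_le_iff₀ hA0]; linarith
    linarith
  refine ⟨A, hA0, ?_⟩
  have tl : Tendsto (fun y : ℕ => Real.log (y : ℝ)) atTop atTop :=
    Real.tendsto_log_atTop.comp tendsto_natCast_atTop_atTop
  have e1 : ∀ᶠ y : ℕ in atTop, 4 * ((1 + 2 * δ) / a + 1) ≤ (y : ℝ) ^ δ :=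
    tendsto_natCast_atTop_atTop.eventually
      ((tendsto_rpow_atTop hδ0).eventually_ge_atTop _)
  filter_upwards [card_PR δ hδ0 (by linarith), e1, tl.eventually_ge_atTop (40 / δ ^ 2 + 2),
    eventually_ge_atTop 1] with y hK hy1 hlog hy Y hY1 hY2 F hF
  obtain ⟨hF1, hF2, hF3⟩ := hF
  have hy0 : (0 : ℝ) < y := by exact_mod_cast hy
  have hyone : (1 : ℝ) ≤ y := by exact_mod_cast hy
  have h40 : 0 < 40 / δ ^ 2 := by positivity
  set l : ℝ := Real.log (y : ℝ) with hl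
  have hl2 : 2 ≤ l := by linarith
  have hl0 : 0 < l := by linarith
  have hYpos : 0 < Y := lt_of_lt_of_le (Real.rpow_pos_of_pos hy0 _) hY1
  set L : ℝ := Real.log Y with hL
  have hYL : Real.exp L = Y := Real.exp_log hYpos
  have hyl : Real.exp l = y := Real.exp_log hy0
  have hAL : A * l ≤ L := by
    have h := Real.log_le_log (Real.rpow_pos_of_pos hy0 _) hY1
    rwa [Real.log_rpow hy0] at h
  have hLy : L ≤ (y : ℝ) ^ θ := by
    have h := Real.log_le_log hYpos hY2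
    rwa [Real.log_exp] at h
  have hlL : l ≤ L := by nlinarith
  have hL0 : 0 < L := by linarith
  have hrp : ∀ x : ℝ, (y : ℝ) ^ x = Real.exp (x * l) := by
    intro x
    rw [Real.rpow_def_of_pos hy0, mul_comm]
  -- the number `B`
  set q : ℝ := (1 + 2 * δ) * L / (a * l) with hq
  have hq0 : 0 < q := by positivity
  set B : ℕ := ⌈q⌉₊ with hB
  have hB1 : q ≤ B := Nat.le_ceil q
  have hB2 : (B : ℝ) < q + 1 := Nat.ceil_lt_add_one hq0.le
  have hB0 : 0 < (B : ℝ) := by linarith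
  have hBl1 : (1 + 2 * δ) * L ≤ a * (B * l) := by
    have h := (div_le_iff₀ (by positivity : (0 : ℝ) < a * l)).mp hB1
    linarith
  have hqa : q * l = (1 + 2 * δ) / a * L := by
    rw [hq]; field_simp
  have hBl2 : B * l ≤ ((1 + 2 * δ) / a + 1 / A) * L := by
    have h1 : (B : ℝ) * l ≤ (q + 1) * l := mul_le_mul_of_nonneg_right hB2.le hl0.le
    have h2 : l ≤ 1 / A * L := by
      rw [one_div, inv_mul_eq_div, le_div_iff₀ hA0]; linarith
    have h3 : (q + 1) * l = q * l + l := by ring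
    rw [h3, hqa] at h1
    linarith
  have h4B : 4 * (B : ℝ) ≤ (y : ℝ) ^ (θ + δ) := by
    have h1 : q ≤ (1 + 2 * δ) / a * (y : ℝ) ^ θ := by
      have h2 : q ≤ (1 + 2 * δ) / a * L := by
        rw [← hqa]
        nlinarith
      exact h2.trans (mul_le_mul_of_nonneg_left hLy (by positivity))
    have h3 : (1 : ℝ) ≤ (y : ℝ) ^ θ := Real.one_le_rpow hyone hθ0.le
    have h5 : 4 * (B : ℝ) ≤ 4 * ((1 + 2 * δ) / a + 1) * (y : ℝ) ^ θ := by
      linarith
    rw [Real.rpow_add hy0, mul_comm ((y : ℝ) ^ θ)]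
    exact h5.trans (mul_le_mul_of_nonneg_right hy1 (by linarith))
  -- the bound for the character sums
  set W : ℝ := 8 * Y * (1 + Real.log (4 * Y ^ 2)) with hW
  have hlog4 : Real.log (4 * Y ^ 2) = Real.log 4 + 2 * L := by
    rw [Real.log_mul (by norm_num) (by positivity), Real.log_pow]; push_cast; rfl
  have hl4a : 0 ≤ Real.log 4 := Real.log_nonneg (by norm_num)
  have hl4b : Real.log 4 ≤ 2 := by
    have h : Real.log 4 = 2 * Real.log 2 := by
      rw [show (4 : ℝ) = 2 ^ 2 by norm_num, Real.log_pow]; push_cast; rfl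
    rw [h]; linarith [Real.log_two_lt_d9]
  have hW0 : 0 ≤ W := by
    rw [hW, hlog4]; positivity
  have hsum : ∀ f ∈ F, ∀ g ∈ F, f ≠ g → ∀ M : ℕ,
      |((∑ m ∈ range M, ps (f * g) m : ℤ) : ℝ)| ≤ W := by
    intro f hf g hg' hfg M
    have hD : f * g ≠ 0 := mul_ne_zero (hF1 f hf).1 (hF1 g hg').1
    refine (hPV (f * g) hD (hF2 f hf g hg' hfg) M).trans ?_
    have h1 : |((f * g : ℤ) : ℝ)| ≤ Y ^ 2 := by
      push_cast
      rw [abs_mul, sq]
      exact mul_le_mul (hF1 f hf).2 (hF1 g hg').2 (abs_nonneg _) hYpos.le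
    have h2 : √|((f * g : ℤ) : ℝ)| ≤ Y := by
      rw [← Real.sqrt_sq hYpos.le]
      exact Real.sqrt_le_sqrt h1
    have h3 : (0 : ℝ) < |((f * g : ℤ) : ℝ)| := abs_pos.mpr (by exact_mod_cast hD)
    have h3' : (1 : ℝ) ≤ |((f * g : ℤ) : ℝ)| := by
      have : (1 : ℤ) ≤ |f * g| := Int.one_le_abs hD
      exact_mod_cast this
    have h4 : Real.log (4 * |((f * g : ℤ) : ℝ)|) ≤ Real.log (4 * Y ^ 2) :=
      Real.log_le_log (by positivity) (by linarith)
    have h5 : 0 ≤ Real.log (4 * |((f * g : ℤ) : ℝ)|) := Real.log_nonneg (by linarith)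
    rw [hW]
    apply mul_le_mul _ (by linarith) (by linarith) (by positivity)
    linarith
  have h2W : 2 * W ≤ Real.exp ((1 + 2 * δ) * L) := by
    have h1 : Real.exp ((1 + 2 * δ) * L) = Y * Real.exp (2 * δ * L) := by
      rw [show (1 + 2 * δ) * L = L + 2 * δ * L by ring, Real.exp_add, hYL]
    rw [h1, hW, hlog4]
    have h2 : (2 * δ * L) ^ 2 / 2 ≤ Real.exp (2 * δ * L) := by
      have h := Real.quadratic_le_exp_of_nonneg (by positivity : 0 ≤ 2 * δ * L)
      have h' : 0 ≤ 2 * δ * L := by positivity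
      linarith
    have hL1 : 40 / δ ^ 2 ≤ L := by linarith
    have h3 : 40 ≤ δ ^ 2 * L := by
      rw [div_le_iff₀ (by positivity)] at hL1
      linarith
    have h4 : 16 * (1 + (Real.log 4 + 2 * L)) ≤ (2 * δ * L) ^ 2 / 2 := by
      have h5 : (2 * δ * L) ^ 2 / 2 = 2 * (δ ^ 2 * L) * L := by ring
      have h7 : 40 * L ≤ (δ ^ 2 * L) * L := mul_le_mul_of_nonneg_right h3 hL0.le
      rw [h5]
      linarith
    have h6 : 16 * (1 + (Real.log 4 + 2 * L)) ≤ Real.exp (2 * δ * L) := h4.trans h2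
    calc 2 * (8 * Y * (1 + (Real.log 4 + 2 * L))) = Y * (16 * (1 + (Real.log 4 + 2 * L))) := by
          ring
      _ ≤ Y * Real.exp (2 * δ * L) := mul_le_mul_of_nonneg_left h6 hYpos.le
  -- powers
  have hKB : Real.exp ((1 - δ) * (B * l)) ≤ ((PR y).card : ℝ) ^ B := by
    have h1 : ((y : ℝ) ^ (1 - δ)) ^ B ≤ ((PR y).card : ℝ) ^ B :=
      pow_le_pow_left₀ (by positivity) hK _
    rw [hrp, ← Real.exp_nat_mul] at h1
    refine le_trans (le_of_eq ?_) h1
    congr 1; ring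
  have h4BB : (4 * (B : ℝ)) ^ B ≤ Real.exp ((θ + δ) * (B * l)) := by
    have h1 : (4 * (B : ℝ)) ^ B ≤ ((y : ℝ) ^ (θ + δ)) ^ B :=
      pow_le_pow_left₀ (by positivity) h4B _
    rw [hrp, ← Real.exp_nat_mul] at h1
    refine h1.trans (le_of_eq ?_)
    congr 1; ring
  have hyB : (y : ℝ) ^ B = Real.exp (B * l) := by
    rw [Real.exp_nat_mul, hyl]
  have hcond : 2 * (4 * (B : ℝ)) ^ B * W ≤ ((PR y).card : ℝ) ^ B := by
    calc 2 * (4 * (B : ℝ)) ^ B * W = (4 * (B : ℝ)) ^ B * (2 * W) := by ring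
      _ ≤ Real.exp ((θ + δ) * (B * l)) * Real.exp ((1 + 2 * δ) * L) :=
          mul_le_mul h4BB h2W (by positivity) (by positivity)
      _ ≤ Real.exp ((θ + δ) * (B * l)) * Real.exp (a * (B * l)) := by
          apply mul_le_mul_of_nonneg_left _ (by positivity)
          exact Real.exp_le_exp.mpr hBl1
      _ = Real.exp ((1 - δ) * (B * l)) := by
          rw [← Real.exp_add]; congr 1; rw [ha]; ring
      _ ≤ _ := hKB
  have hmain := hI B y (PR y) hy (fun p hp => (mem_PR.mp hp).2.1)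
    (fun p hp => (mem_PR.mp hp).1.le) F W hW0 hsum hF3 hcond
  have hfin : (F.card : ℝ) ≤ 4 * Real.exp ((θ + 2 * δ) * (B * l)) := by
    have h1 : (F.card : ℝ) * Real.exp ((1 - δ) * (B * l)) ≤
        4 * Real.exp ((θ + δ) * (B * l)) * Real.exp (B * l) := by
      calc (F.card : ℝ) * Real.exp ((1 - δ) * (B * l)) ≤
            (F.card : ℝ) * ((PR y).card : ℝ) ^ B :=
            mul_le_mul_of_nonneg_left hKB (Nat.cast_nonneg _)
        _ ≤ 4 * (4 * (B : ℝ)) ^ B * (y : ℝ) ^ B := hmain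
        _ ≤ _ := by
            rw [hyB]
            gcongr
    have h2 : 4 * Real.exp ((θ + δ) * (B * l)) * Real.exp (B * l) =
        4 * Real.exp ((θ + 2 * δ) * (B * l)) * Real.exp ((1 - δ) * (B * l)) := by
      rw [mul_assoc, mul_assoc, ← Real.exp_add, ← Real.exp_add]
      congr 2; ring
    rw [h2] at h1
    exact le_of_mul_le_mul_right h1 (Real.exp_pos _)
  have h4e : (4 : ℝ) ≤ Real.exp (1 / A * L) := by
    have h1 : l ≤ 1 / A * L := by
      rw [one_div, inv_mul_eq_div, le_div_iff₀ hA0]; linarith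
    calc (4 : ℝ) = Real.exp (Real.log 4) := (Real.exp_log (by norm_num)).symm
      _ ≤ _ := Real.exp_le_exp.mpr (by linarith)
  calc (F.card : ℝ) ≤ 4 * Real.exp ((θ + 2 * δ) * (B * l)) := hfin
    _ ≤ Real.exp (1 / A * L) * Real.exp ((θ + 2 * δ) * (((1 + 2 * δ) / a + 1 / A) * L)) := by
        apply mul_le_mul h4e _ (by positivity) (by positivity)
        exact Real.exp_le_exp.mpr (mul_le_mul_of_nonneg_left hBl2 (by positivity))
    _ = Real.exp ((g + (θ + 2 * δ + 1) / A) * L) := by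
        rw [← Real.exp_add]; congr 1; rw [hg]; ring
    _ ≤ Real.exp (κ * L) := Real.exp_le_exp.mpr (mul_le_mul_of_nonneg_right hAg hL0.le)
    _ = Y ^ κ := by rw [Real.rpow_def_of_pos hYpos, mul_comm]

end Pool.Agent.T2H32.RRT
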