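import Pool.Agent.T2H32.RRT.Stm

set_option autoImplicit false

namespace Pool.Agent.T2H32.RRT

open Finset Filter Topology Pool.Agent.R920.CH Pool.Agent.R852.LK

lemma GOO_aux (θ : ℝ) (hθ0 : 0 < θ) (hθ : θ < 1) : ∀ᶠ n : ℕ in atTop, ∀ f s : ℤ, f * s ^ 2 ≠ 0 →
    |((f * s ^ 2 : ℤ) : ℝ)| ≤ Real.exp ((n : ℝ) ^ θ) → IsDisc n (f * s ^ 2) →
      ((PR n).card : ℝ) / 2 ≤ ∑ p ∈ PR n, (ps f p : ℝ) := by
  set δ : ℝ := (1 - θ) / 2 with hδ
  have hδ0 : 0 < δ := by rw [hδ]; linarith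
  have hδ1 : δ < 1 := by rw [hδ]; linarith
  have e1 : ∀ᶠ n : ℕ in atTop, (8 : ℝ) ≤ (n : ℝ) ^ δ :=
    tendsto_natCast_atTop_atTop.eventually
      ((tendsto_rpow_atTop hδ0).eventually_ge_atTop _)
  filter_upwards [card_PR δ hδ0 hδ1, e1, eventually_ge_atTop 1] with n hK hn8 hn1 f s hfs hX hD
  have hn0 : (0 : ℝ) < n := by exact_mod_cast hn1
  set K : ℝ := ((PR n).card : ℝ) with hKdef
  have hK8 : 8 * (n : ℝ) ^ θ ≤ K := by
    refine le_trans ?_ hK
    have e : (n : ℝ) ^ (1 - δ) = (n : ℝ) ^ δ * (n : ℝ) ^ θ := by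
      rw [← Real.rpow_add hn0]; congr 1; rw [hδ]; ring
    rw [e]
    exact mul_le_mul_of_nonneg_right hn8 (by positivity)
  set g : ℤ := f * s ^ 2 with hg
  set D : Finset ℕ := (PR n).filter fun p : ℕ => (p : ℤ) ∣ g with hDdef
  have hd1 : (∏ p ∈ D, p) ∣ g.natAbs := by
    apply Finset.prod_primes_dvd
    · intro p hp
      exact (mem_PR.mp (mem_filter.mp hp).1).2.1.prime
    · intro p hp
      exact Int.natCast_dvd.mp (mem_filter.mp hp).2
  have hd2 : 2 ^ D.card ≤ g.natAbs := by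
    calc 2 ^ D.card = ∏ _p ∈ D, 2 := by rw [prod_const]
      _ ≤ ∏ p ∈ D, p := prod_le_prod' fun p hp =>
          (mem_PR.mp (mem_filter.mp hp).1).2.1.two_le
      _ ≤ g.natAbs := Nat.le_of_dvd (Int.natAbs_pos.mpr hfs) hd1
  have hd3 : ((2 : ℝ) ^ D.card) ≤ Real.exp ((n : ℝ) ^ θ) := by
    have h1 : ((2 ^ D.card : ℕ) : ℝ) ≤ (g.natAbs : ℝ) := by exact_mod_cast hd2
    push_cast at h1
    rw [Nat.cast_natAbs, Int.cast_abs] at h1
    exact h1.trans hX
  have hd4 : (D.card : ℝ) * Real.log 2 ≤ (n : ℝ) ^ θ := by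
    have h1 := Real.log_le_log (by positivity) hd3
    rwa [Real.log_pow, Real.log_exp] at h1
  have hl2 : (1 / 2 : ℝ) ≤ Real.log 2 := by linarith [Real.log_two_gt_d9]
  have hd5 : (D.card : ℝ) ≤ K / 4 := by
    have h1 : (D.card : ℝ) * (1 / 2) ≤ (n : ℝ) ^ θ :=
      (mul_le_mul_of_nonneg_left hl2 (Nat.cast_nonneg _)).trans hd4
    linarith
  obtain ⟨c₁, c₂, hRR, hc⟩ := hD
  have hlow : ∀ p ∈ PR n, (1 : ℝ) - (if (p : ℤ) ∣ g then 2 else 0) ≤ (ps f p : ℝ) := by
    intro p hp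
    split_ifs with h
    · have := (abs_le.mp (ps_abs f p)).1
      have h' : ((-1 : ℤ) : ℝ) ≤ (ps f p : ℝ) := by exact_mod_cast this
      push_cast at h'
      linarith
    · obtain ⟨hp1, hp2, hp3⟩ := mem_PR.mp hp
      have h1 : ps g p = 1 := by
        apply ps_one_of _ p hp2 hp3 h
        rw [← hc]
        exact square_mod hRR p hp2 hp3 (by omega)
      have h2 : ps g p = ps f p * ps s p ^ 2 := by
        rw [hg, ps_left, sq s, ps_left, sq]
      have h3 : ps f p = 1 := by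
        rw [h2] at h1
        have h4 : 0 < ps f p * ps s p ^ 2 := by omega
        have h5 : 0 < ps f p := by
          by_contra hcon
          push Not at hcon
          have := mul_nonpos_of_nonpos_of_nonneg hcon (sq_nonneg (ps s p))
          omega
        have h6 := (abs_le.mp (ps_abs f p)).2
        omega
      rw [h3]; norm_num
  have hs := sum_le_sum hlow
  rw [sum_sub_distrib, sum_const, nsmul_eq_mul, mul_one, ← sum_filter, sum_const,
    nsmul_eq_mul] at hs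
  rw [← hKdef] at hs
  have hDc : (((PR n).filter fun p : ℕ => (p : ℤ) ∣ g).card : ℝ) = D.card := rfl
  rw [hDc] at hs
  linarith

theorem GOO_main : GOO := by
  intro θ hθ
  by_cases h : 0 < θ
  · exact GOO_aux θ h hθ
  · push Not at h
    filter_upwards [GOO_aux (1 / 2) (by norm_num) (by norm_num), eventually_ge_atTop 1]
      with n hn hn1 f s h1 h2 h3
    apply hn f s h1 (h2.trans _) h3
    apply Real.exp_le_exp.mpr
    exact Real.rpow_le_rpow_of_exponent_le (by exact_mod_cast hn1) (by linarith)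

end Pool.Agent.T2H32.RRT
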