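import Pool.Agent.T2H32.RRT.Stm

set_option autoImplicit false

open Finset Filter Topology

namespace Pool.Agent.T2H32.RRT

open Pool.Agent.R920.CH Pool.Agent.R852.LK

lemma ineqW (B y : ℕ) (Q : Finset ℕ) (hQ : ∀ p ∈ Q, p.Prime) (hQy : ∀ p ∈ Q, p ≤ y)
    (F : Finset ℤ) (W : ℝ) (hW0 : 0 ≤ W)
    (hW : ∀ f ∈ F, ∀ g ∈ F, f ≠ g → ∀ M : ℕ, |((∑ m ∈ range M, ps (f * g) m : ℤ) : ℝ)| ≤ W)
    (hF : ∀ f ∈ F, (Q.card : ℝ) / 2 ≤ ∑ p ∈ Q, (ps f p : ℝ)) :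
    ((F.card : ℝ) * ((Q.card : ℝ) / 2) ^ B) ^ 2 ≤
      (Q.card : ℝ) ^ B * ((B : ℝ) ^ B *
        ((F.card : ℝ) * ((y : ℝ) ^ B + 1) + (F.card : ℝ) ^ 2 * W)) := by
  classical
  set G : ℕ → ℝ := fun m => ∑ f ∈ F, (ps f m : ℝ) with hG
  set T := Fintype.piFinset (fun _ : Fin B => Q) with hT
  have hTc : (T.card : ℝ) = (Q.card : ℝ) ^ B := by
    rw [hT, Fintype.card_piFinset]; simp
  have h1 : (F.card : ℝ) * ((Q.card : ℝ) / 2) ^ B ≤ ∑ t ∈ T, G (∏ i, t i) := by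
    have e1 : ∑ t ∈ T, G (∏ i, t i) = ∑ f ∈ F, (∑ p ∈ Q, (ps f p : ℝ)) ^ B := by
      simp only [hG]
      rw [sum_comm]
      refine sum_congr rfl fun f _ => ?_
      have h := Finset.prod_univ_sum (fun _ : Fin B => Q)
        (fun (_ : Fin B) (p : ℕ) => (ps f p : ℝ))
      rw [prod_const, card_univ, Fintype.card_fin] at h
      rw [h]
      refine sum_congr rfl fun t _ => ?_
      rw [ps_prod]; push_cast; rfl
    rw [e1]
    calc (F.card : ℝ) * ((Q.card : ℝ) / 2) ^ B = ∑ _f ∈ F, ((Q.card : ℝ) / 2) ^ B := by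
          rw [sum_const, nsmul_eq_mul]
      _ ≤ _ := sum_le_sum fun f hf => pow_le_pow_left₀ (by positivity) (hF f hf) _
  have h2 : (∑ t ∈ T, G (∏ i, t i)) ^ 2 ≤ (T.card : ℝ) * ∑ t ∈ T, (G (∏ i, t i)) ^ 2 :=
    sq_sum_le_card_mul_sum_sq
  have h3 := second B y Q hQ hQy (fun m => G m ^ 2) (fun m => sq_nonneg _)
  have h4 : ∑ m ∈ range (y ^ B + 1), G m ^ 2 ≤
      (F.card : ℝ) * ((y : ℝ) ^ B + 1) + (F.card : ℝ) ^ 2 * W := by
    have e : ∀ m, G m ^ 2 = ∑ f ∈ F, ∑ g ∈ F, (ps (f * g) m : ℝ) := by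
      intro m
      simp only [hG]
      rw [sq, sum_mul_sum]
      refine sum_congr rfl fun f _ => sum_congr rfl fun g _ => ?_
      rw [ps_left]; push_cast; rfl
    simp_rw [e]
    rw [sum_comm]
    have h5 : ∀ f ∈ F, ∑ m ∈ range (y ^ B + 1), ∑ g ∈ F, (ps (f * g) m : ℝ) ≤
        ((y : ℝ) ^ B + 1) + (F.card : ℝ) * W := by
      intro f hf
      rw [sum_comm]
      have h6 : ∀ g ∈ F, ∑ m ∈ range (y ^ B + 1), (ps (f * g) m : ℝ) ≤
          (if g = f then ((y : ℝ) ^ B + 1) else 0) + W := by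
        intro g hg
        split_ifs with hfg
        · have h7 : ∑ m ∈ range (y ^ B + 1), (ps (f * g) m : ℝ) ≤
              ∑ _m ∈ range (y ^ B + 1), (1 : ℝ) :=
            sum_le_sum fun m _ => by
              have := (abs_le.mp (ps_abs (f * g) m)).2
              exact_mod_cast this
          rw [sum_const, card_range, nsmul_eq_mul, mul_one] at h7
          push_cast at h7
          linarith
        · rw [zero_add]
          have hb' := (abs_le.mp (hW f hf g hg (Ne.symm hfg) (y ^ B + 1))).2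
          push_cast at hb'
          exact hb'
      refine (sum_le_sum h6).trans ?_
      rw [sum_add_distrib, sum_ite_eq' , if_pos hf, sum_const, nsmul_eq_mul]
    refine (sum_le_sum h5).trans ?_
    rw [sum_const, nsmul_eq_mul]
    apply le_of_eq; ring
  have h0 : 0 ≤ (F.card : ℝ) * ((Q.card : ℝ) / 2) ^ B := by positivity
  calc ((F.card : ℝ) * ((Q.card : ℝ) / 2) ^ B) ^ 2 ≤ (∑ t ∈ T, G (∏ i, t i)) ^ 2 :=
        pow_le_pow_left₀ h0 h1 2
    _ ≤ (T.card : ℝ) * ∑ t ∈ T, (G (∏ i, t i)) ^ 2 := h2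
    _ ≤ (T.card : ℝ) * ((B : ℝ) ^ B * ∑ m ∈ range (y ^ B + 1), G m ^ 2) :=
        mul_le_mul_of_nonneg_left h3 (Nat.cast_nonneg _)
    _ ≤ (T.card : ℝ) * ((B : ℝ) ^ B *
        ((F.card : ℝ) * ((y : ℝ) ^ B + 1) + (F.card : ℝ) ^ 2 * W)) := by
        gcongr
    _ = _ := by rw [hTc]

theorem INE_main : INE := by
  intro B y Q hy hQ hQy F W hW0 hW hF hcond
  have hmain := ineqW B y Q hQ hQy F W hW0 hW hF
  set K : ℝ := (Q.card : ℝ) with hK
  set R : ℝ := (F.card : ℝ) with hR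
  set c : ℝ := (4 * (B : ℝ)) ^ B with hc
  have hK0 : 0 ≤ K := Nat.cast_nonneg _
  have hR0 : 0 ≤ R := Nat.cast_nonneg _
  have hc0 : 0 ≤ c := by positivity
  have hyone : (1 : ℝ) ≤ y := by exact_mod_cast hy
  rcases hR0.eq_or_lt with hR1 | hRpos
  · rw [← hR1, zero_mul]; positivity
  rcases (pow_nonneg hK0 B).eq_or_lt with hKB | hKB
  · rw [← hKB, mul_zero]; positivity
  have s1 : R ^ 2 * K ^ B ≤ c * (R * ((y : ℝ) ^ B + 1) + R ^ 2 * W) := by
    have h1 : (R * (K / 2) ^ B) ^ 2 = K ^ B * (R ^ 2 * K ^ B / 4 ^ B) := by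
      rw [div_pow, show (4 : ℝ) = 2 * 2 by norm_num, mul_pow 2 2 B]; field_simp
    rw [h1] at hmain
    have h2 := le_of_mul_le_mul_left hmain hKB
    rw [div_le_iff₀ (by positivity)] at h2
    calc R ^ 2 * K ^ B ≤ _ := h2
      _ = _ := by rw [hc, mul_pow]; ring
  have s5 : (y : ℝ) ^ B + 1 ≤ 2 * (y : ℝ) ^ B := by
    have : 1 ≤ (y : ℝ) ^ B := one_le_pow₀ hyone
    linarith
  have h2 : c * (R * ((y : ℝ) ^ B + 1)) ≤ c * (R * (2 * (y : ℝ) ^ B)) := by gcongr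
  have h3 : c * (R ^ 2 * W) ≤ R ^ 2 * (K ^ B / 2) := by
    have h4 : c * W ≤ K ^ B / 2 := by linarith
    have := mul_le_mul_of_nonneg_left h4 (sq_nonneg R)
    calc c * (R ^ 2 * W) = R ^ 2 * (c * W) := by ring
      _ ≤ _ := this
  have h4 : R * (R * K ^ B) ≤ R * (4 * c * (y : ℝ) ^ B) := by
    rw [mul_add] at s1
    nlinarith
  exact le_of_mul_le_mul_left h4 hRpos

end Pool.Agent.T2H32.RRT
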