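import Pool.Agent.T2H32.RRT.Stm

/-!
# Package LOC: the Riemann-Roch conditions from a root modulo `n!`
-/

set_option autoImplicit false

namespace Pool.Agent.T2H32.RRT

open Polynomial Pool.Agent.R920.CH

namespace LOCx

/-- the power sums of the roots of `T ^ 2 - c T + d` -/
def ps2 (c d : ℤ) : ℕ → ℤ
  | 0 => 2
  | 1 => c
  | k + 2 => c * ps2 c d (k + 1) - d * ps2 c d k

theorem ps2_eq {K : Type} [Field K] (c d : ℤ) (x y : K) (h1 : x + y = c) (h2 : x * y = d) (k : ℕ) :
    x ^ k + y ^ k = (ps2 c d k : K) ∧ x ^ (k + 1) + y ^ (k + 1) = (ps2 c d (k + 1) : K) := by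
  induction k with
  | zero => exact ⟨by norm_num [ps2], by simp [ps2, h1]⟩
  | succ k ih =>
    refine ⟨ih.2, ?_⟩
    rw [show ps2 c d (k + 1 + 1) = c * ps2 c d (k + 1) - d * ps2 c d k from rfl]
    push_cast
    rw [← ih.1, ← ih.2, ← h1, ← h2]
    ring

theorem ps2_mod (N c d d' : ℤ) (h : N ∣ d - d') (k : ℕ) :
    N ∣ ps2 c d k - ps2 c d' k ∧ N ∣ ps2 c d (k + 1) - ps2 c d' (k + 1) := by
  induction k with
  | zero => exact ⟨by simp [ps2], by simp [ps2]⟩
  | succ k ih =>
    refine ⟨ih.2, ?_⟩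
    have e : ps2 c d (k + 1 + 1) - ps2 c d' (k + 1 + 1) =
        c * (ps2 c d (k + 1) - ps2 c d' (k + 1)) - d * (ps2 c d k - ps2 c d' k) - (d - d') * ps2 c d' k := by
      rw [show ps2 c d (k + 1 + 1) = c * ps2 c d (k + 1) - d * ps2 c d k from rfl,
        show ps2 c d' (k + 1 + 1) = c * ps2 c d' (k + 1) - d' * ps2 c d' k from rfl]
      ring
    rw [e]
    exact dvd_sub (dvd_sub (Dvd.dvd.mul_left ih.2 c) (Dvd.dvd.mul_left ih.1 d)) (Dvd.dvd.mul_right h _)

theorem intPoly (N : ℤ) (c d a b : ℤ) (hab : a + b = c) (h : N ∣ d - a * b) (x y : ℂ) (h1 : x + y = c) (h2 : x * y = d)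
    (g : ℤ[X]) : ∃ m : ℤ, aeval x g + aeval y g - (aeval (a : ℂ) g + aeval (b : ℂ) g) = (N : ℂ) * m := by
  induction g using Polynomial.induction_on' with
  | add p q hp hq =>
    obtain ⟨m, hm⟩ := hp
    obtain ⟨m', hm'⟩ := hq
    refine ⟨m + m', ?_⟩
    simp only [map_add]
    push_cast
    linear_combination hm + hm'
  | monomial k r =>
    obtain ⟨m, hm⟩ := (ps2_mod N c d (a * b) h k).1
    refine ⟨r * m, ?_⟩
    have e1 := (ps2_eq c d x y h1 h2 k).1
    have e2 := (ps2_eq c (a * b) (a : ℂ) (b : ℂ) (by exact_mod_cast hab) (by push_cast; ring) k).1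
    simp only [aeval_monomial, eq_intCast]
    have e3 : (r : ℂ) * x ^ k + r * y ^ k - (r * (a : ℂ) ^ k + r * (b : ℂ) ^ k) =
        r * ((x ^ k + y ^ k) - ((a : ℂ) ^ k + (b : ℂ) ^ k)) := by ring
    rw [e3, e1, e2]
    have e4 : ((ps2 c d k : ℤ) : ℂ) - ((ps2 c (a * b) k : ℤ) : ℂ) = ((N * m : ℤ) : ℂ) := by
      rw [← hm]; push_cast; ring
    rw [e4]
    push_cast
    ring

theorem prodLow (i : ℕ) : ∏ j ∈ Finset.range i, ((i : ℤ) - j) = i.factorial := by
  rw [← Finset.prod_range_add_one_eq_factorial, ← Finset.prod_range_reflect]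
  push_cast
  apply Finset.prod_congr rfl
  intro j hj
  have : j < i := Finset.mem_range.mp hj
  rw [Nat.cast_sub (by omega), Nat.cast_sub (by omega)]
  push_cast
  ring

theorem prodHigh (i t : ℕ) : ∏ j ∈ Finset.Ico (i + 1) (i + 1 + t), ((i : ℤ) - j) = (-1) ^ t * t.factorial := by
  induction t with
  | zero => simp
  | succ t ih =>
    rw [show i + 1 + (t + 1) = (i + 1 + t) + 1 by ring, Finset.prod_Ico_succ_top (by omega), ih,
      Nat.factorial_succ]
    push_cast
    ring

theorem prodDvd (n i : ℕ) (hi : i ≤ n) :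
    ∏ j ∈ (Finset.range (n + 1)).erase i, ((i : ℤ) - j) ∣ (n.factorial : ℤ) := by
  obtain ⟨t, rfl⟩ := Nat.exists_eq_add_of_le hi
  have hs : (Finset.range (i + t + 1)).erase i = Finset.range i ∪ Finset.Ico (i + 1) (i + 1 + t) := by
    ext j
    simp only [Finset.mem_erase, Finset.mem_range, Finset.mem_union, Finset.mem_Ico]
    omega
  have hd : Disjoint (Finset.range i) (Finset.Ico (i + 1) (i + 1 + t)) := by
    rw [Finset.disjoint_left]
    intro j hj
    simp only [Finset.mem_range] at hj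
    simp only [Finset.mem_Ico]
    omega
  rw [hs, Finset.prod_union hd, prodLow, prodHigh]
  have h1 : ((i.factorial * t.factorial : ℕ) : ℤ) ∣ ((i + t).factorial : ℤ) := by
    exact_mod_cast Nat.factorial_mul_factorial_dvd_factorial_add i t
  obtain ⟨m, hm⟩ := h1
  refine ⟨(-1) ^ t * m, ?_⟩
  rw [hm]
  push_cast
  have : ((-1 : ℤ) ^ t) * (-1) ^ t = 1 := by rw [← mul_pow]; norm_num
  linear_combination (-(i.factorial : ℤ) * t.factorial * m) * this

/-- the difference of the sums over the roots and over `a, b` -/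
theorem main (n : ℕ) (c d a b : ℤ) (hab : a + b = c) (h : (n.factorial : ℤ) ∣ d - a * b) (x y : ℂ)
    (h1 : x + y = c) (h2 : x * y = d) (f : ℚ[X]) (hf : IsIntegerValued f) (hn : f.natDegree ≤ n) :
    ∃ z : ℤ, aeval x f + aeval y f = z := by
  choose z hz using hf
  have hinj : Set.InjOn (fun i : ℕ => (i : ℚ)) (Finset.range (n + 1)) := by
    intro i _ j _ hij
    simpa using hij
  have hdeg : f.degree < ((Finset.range (n + 1)).card : WithBot ℕ) := by
    rw [Finset.card_range]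
    calc f.degree ≤ f.natDegree := degree_le_natDegree
      _ < ((n + 1 : ℕ) : WithBot ℕ) := by exact_mod_cast Nat.lt_succ_of_le hn
  have hL := Lagrange.eq_interpolate hinj hdeg
  rw [Lagrange.interpolate_apply] at hL
  -- each basis polynomial
  have hB : ∀ i ∈ Finset.range (n + 1), ∃ m : ℤ,
      aeval x (Lagrange.basis (Finset.range (n + 1)) (fun i : ℕ => (i : ℚ)) i) +
      aeval y (Lagrange.basis (Finset.range (n + 1)) (fun i : ℕ => (i : ℚ)) i) -
      (aeval (a : ℂ) (Lagrange.basis (Finset.range (n + 1)) (fun i : ℕ => (i : ℚ)) i) +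
      aeval (b : ℂ) (Lagrange.basis (Finset.range (n + 1)) (fun i : ℕ => (i : ℚ)) i)) = m := by
    intro i hi
    have hi' : i ≤ n := by have := Finset.mem_range.mp hi; omega
    obtain ⟨E, hE⟩ := prodDvd n i hi'
    set Dp : ℤ := ∏ j ∈ (Finset.range (n + 1)).erase i, ((i : ℤ) - j) with hDp
    have hD0 : Dp ≠ 0 := by
      rw [hDp]
      apply Finset.prod_ne_zero_iff.mpr
      intro j hj
      have := (Finset.mem_erase.mp hj).1
      intro h0
      apply this
      have : (i : ℤ) = j := by linear_combination h0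
      exact_mod_cast this.symm
    set G : ℤ[X] := ∏ j ∈ (Finset.range (n + 1)).erase i, (X - C (j : ℤ)) with hG
    have hbas : ∀ w : ℂ, aeval w (Lagrange.basis (Finset.range (n + 1)) (fun i : ℕ => (i : ℚ)) i) =
        ((Dp : ℂ))⁻¹ * aeval w G := by
      intro w
      rw [Lagrange.basis, hG, hDp]
      simp only [Lagrange.basisDivisor, map_prod, map_mul, map_sub, aeval_X, aeval_C]
      push_cast
      rw [← Finset.prod_inv_distrib, ← Finset.prod_mul_distrib]
    obtain ⟨m, hm⟩ := intPoly (n.factorial : ℤ) c d a b hab h x y h1 h2 G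
    refine ⟨E * m, ?_⟩
    rw [hbas, hbas, hbas, hbas]
    have hDC : (Dp : ℂ) ≠ 0 := by exact_mod_cast hD0
    have e : ((Dp : ℂ))⁻¹ * aeval x G + ((Dp : ℂ))⁻¹ * aeval y G - (((Dp : ℂ))⁻¹ * aeval (a : ℂ) G + ((Dp : ℂ))⁻¹ * aeval (b : ℂ) G) =
        ((Dp : ℂ))⁻¹ * (aeval x G + aeval y G - (aeval (a : ℂ) G + aeval (b : ℂ) G)) := by ring
    rw [e, hm, hE]
    push_cast
    field_simp
  choose! m hm using hB
  -- the values at `a` and `b`
  have hval : ∀ t : ℤ, aeval (t : ℂ) f = (z t : ℂ) := by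
    intro t
    have : aeval (t : ℂ) f = ((f.eval (t : ℚ) : ℚ) : ℂ) := by
      have h3 := Polynomial.aeval_algebraMap_apply ℂ (t : ℚ) f
      simpa using h3
    rw [this, hz t]
    push_cast
    rfl
  have hsum : aeval x f + aeval y f - (aeval (a : ℂ) f + aeval (b : ℂ) f) =
      ((∑ i ∈ Finset.range (n + 1), z i * m i : ℤ) : ℂ) := by
    have hw : ∀ w : ℂ, aeval w f = ∑ i ∈ Finset.range (n + 1), (z i : ℂ) *
        aeval w (Lagrange.basis (Finset.range (n + 1)) (fun i : ℕ => (i : ℚ)) i) := by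
      intro w
      conv_lhs => rw [hL]
      rw [map_sum]
      apply Finset.sum_congr rfl
      intro i _
      rw [map_mul, aeval_C]
      congr 1
      have h4 := hz (i : ℤ)
      have h5 : f.eval (i : ℚ) = (z i : ℚ) := by simpa using h4
      simp only [h5]
      simp
    rw [hw x, hw y, hw (a : ℂ), hw (b : ℂ), ← Finset.sum_add_distrib, ← Finset.sum_add_distrib,
      ← Finset.sum_sub_distrib]
    push_cast
    apply Finset.sum_congr rfl
    intro i hi
    rw [← hm i hi]
    ring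
  refine ⟨(∑ i ∈ Finset.range (n + 1), z i * m i) + (z a + z b), ?_⟩
  rw [hval, hval] at hsum
  push_cast at hsum ⊢
  linear_combination hsum

end LOCx

theorem LOC_main : LOC := by
  intro n c₁ c₂ a h f hf hn
  obtain ⟨x, y, hxy, h1, h2⟩ := roots2 c₁ c₂
  obtain ⟨z, hz⟩ := LOCx.main n c₁ c₂ a (c₁ - a) (by ring) (by
    have e : c₂ - a * (c₁ - a) = a ^ 2 - c₁ * a + c₂ := by ring
    rw [e]; exact h) x y h1 h2 f hf hn
  refine ⟨z, ?_⟩
  rw [hxy]
  simpa using hz

end Pool.Agent.T2H32.RRT
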