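import Pool.Agent.T2H32.RRT.Stm

set_option autoImplicit false

namespace Pool.Agent.T2H32.RRT

open Finset Filter Topology Pool.Agent.R920.CH Pool.Agent.R852.LK

namespace LOWp

lemma pair_ok (h1 : LOC) (h2 : SQR) {n : ℕ} (hn : 2 ≤ n) {c D : ℤ} (hc : c % 2 = 1)
    (hD8 : D % 8 = 1) (hsq : ¬ IsSquare D)
    (hp : ∀ p : ℕ, p.Prime → p ≠ 2 → p ≤ n → ¬ (p : ℤ) ∣ D ∧ ∃ t : ℤ, (p : ℤ) ∣ D - t ^ 2) :
    4 * ((c ^ 2 - D) / 4) = c ^ 2 - D ∧ RiemannRoch n (poly2 c ((c ^ 2 - D) / 4)) ∧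
      ¬ ∃ a b : ℤ, c = a + b ∧ (c ^ 2 - D) / 4 = a * b := by
  have hdiv : (4 : ℤ) ∣ c ^ 2 - D := by
    obtain ⟨k, hk⟩ : ∃ k, c = 2 * k + 1 := ⟨c / 2, by omega⟩
    obtain ⟨l, hl⟩ : ∃ l, D = 8 * l + 1 := ⟨D / 8, by omega⟩
    refine ⟨k ^ 2 + k - 2 * l, ?_⟩
    rw [hk, hl]; ring
  have h4 : 4 * ((c ^ 2 - D) / 4) = c ^ 2 - D := Int.mul_ediv_cancel' hdiv
  refine ⟨h4, ?_, ?_⟩
  · obtain ⟨s, hs⟩ := h2 n (4 * n.factorial) D (by positivity) (by
      intro p hpp hpd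
      rcases (Nat.Prime.dvd_mul hpp).mp hpd with h | h
      · have : p ∣ 2 ^ 2 := by simpa using h
        have := Nat.le_of_dvd (by norm_num) (hpp.dvd_of_dvd_pow this)
        omega
      · exact (Nat.Prime.dvd_factorial hpp).mp h) hD8 hp
    push_cast at hs
    obtain ⟨w, hw⟩ := hs
    have hsodd : s % 2 = 1 := by
      by_contra hcon
      obtain ⟨r, hr⟩ : ∃ r, s = 2 * r := ⟨s / 2, by omega⟩
      have e1 : D = 2 * (2 * r ^ 2 - 2 * (n.factorial : ℤ) * w) := by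
        have : D = s ^ 2 - 4 * (n.factorial : ℤ) * w := by linarith
        rw [this, hr]; ring
      omega
    obtain ⟨a, ha⟩ : ∃ a, c + s = 2 * a := ⟨(c + s) / 2, by omega⟩
    refine h1 n c _ a ⟨w, ?_⟩
    have hs' : s = 2 * a - c := by linarith
    have e2 : 4 * (a ^ 2 - c * a + (c ^ 2 - D) / 4) = 4 * ((n.factorial : ℤ) * w) := by
      rw [mul_add, h4]
      have : s ^ 2 - D = 4 * (n.factorial : ℤ) * w := hw
      rw [hs'] at this
      linarith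
    linarith
  · rintro ⟨a, b, hab, hab2⟩
    apply hsq
    refine ⟨a - b, ?_⟩
    have : D = c ^ 2 - 4 * ((c ^ 2 - D) / 4) := by linarith
    rw [this, hab2, hab]; ring

lemma card_split (n Y : ℕ) : ((Icc 1 Y).filter Nat.Prime).card ≤
    n + ((Icc (n + 1) Y).filter Nat.Prime).card := by
  have hsub : (Icc 1 Y).filter Nat.Prime ⊆ Icc 1 n ∪ (Icc (n + 1) Y).filter Nat.Prime := by
    intro p hp
    rw [mem_filter, mem_Icc] at hp
    rw [mem_union, mem_filter, mem_Icc, mem_Icc]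
    by_cases h : p ≤ n
    · left; exact ⟨hp.1.1, h⟩
    · right; exact ⟨⟨by omega, hp.1.2⟩, hp.2⟩
  refine (card_le_card hsub).trans ((card_union_le _ _).trans ?_)
  simp

lemma card_pc (n : ℕ) : ((Icc 1 n).filter Nat.Prime).card ≤ Nat.primeCounting n := by
  rw [Nat.primeCounting, Nat.primeCounting', Nat.count_eq_card_filter_range]
  apply card_le_card
  intro p hp
  rw [mem_filter, mem_Icc] at hp
  rw [mem_filter, mem_range]
  exact ⟨by omega, hp.2⟩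

/-- the combinatorial part -/
lemma exists_set (h1 : LOC) (h2 : SQR) (h3 : PIG) {n : ℕ} (hn : 2 ≤ n) {H m K : ℝ} (hH : 4 ≤ H)
    (hK : K = 2 ^ (Nat.primeCounting n + 1))
    (hm : m = (((Icc (n + 1) ⌊H⌋₊).filter Nat.Prime).card : ℝ)) (hmK : 2 * K ≤ m) :
    ∃ S : Finset (ℤ × ℤ),
    (∀ c ∈ S, |(c.1 : ℝ)| ≤ H ∧ |(c.2 : ℝ)| ≤ H ^ 2 ∧
      RiemannRoch n (poly2 c.1 c.2) ∧ ¬ ∃ a b : ℤ, c.1 = a + b ∧ c.2 = a * b) ∧
    H / 4 * (m ^ 2 / (4 * K)) ≤ S.card := by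
  obtain ⟨S₀, hS₀, hc₀⟩ := h3 n ⌊H⌋₊ hn
  rw [← hm, ← hK] at hc₀
  have hK0 : 0 < K := by rw [hK]; positivity
  have hm0 : 0 < m := by linarith
  have hfl : ((⌊H⌋₊ : ℕ) : ℝ) ≤ H := Nat.floor_le (by linarith)
  have hfl2 : ((⌊H / 2⌋₊ : ℕ) : ℝ) ≤ H / 2 := Nat.floor_le (by linarith)
  have hfl3 : H / 2 < ((⌊H / 2⌋₊ : ℕ) : ℝ) + 1 := Nat.lt_floor_add_one _
  set N := ⌊H / 2⌋₊ with hN
  let φ : ℕ × ℤ → ℤ × ℤ := fun q => (2 * (q.1 : ℤ) + 1, ((2 * (q.1 : ℤ) + 1) ^ 2 - q.2) / 4)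
  have hodd : ∀ k : ℕ, (2 * (k : ℤ) + 1) % 2 = 1 := fun k => by omega
  have hall : ∀ q ∈ (range N) ×ˢ S₀,
      4 * (((2 * (q.1 : ℤ) + 1) ^ 2 - q.2) / 4) = (2 * (q.1 : ℤ) + 1) ^ 2 - q.2 ∧
      RiemannRoch n (poly2 (2 * (q.1 : ℤ) + 1) (((2 * (q.1 : ℤ) + 1) ^ 2 - q.2) / 4)) ∧
      ¬ ∃ a b : ℤ, (2 * (q.1 : ℤ) + 1) = a + b ∧ ((2 * (q.1 : ℤ) + 1) ^ 2 - q.2) / 4 = a * b := by
    intro q hq
    rw [mem_product] at hq
    obtain ⟨_, _, hsq, h8, hpp⟩ := hS₀ q.2 hq.2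
    exact pair_ok h1 h2 hn (hodd _) h8 hsq hpp
  have hinj : Set.InjOn φ ((range N ×ˢ S₀ : Finset (ℕ × ℤ)) : Set (ℕ × ℤ)) := by
    intro q hq q' hq' he
    have a1 := (hall q hq).1
    have a2 := (hall q' hq').1
    have e1 : 2 * (q.1 : ℤ) + 1 = 2 * (q'.1 : ℤ) + 1 := (Prod.ext_iff.mp he).1
    have e2 : ((2 * (q.1 : ℤ) + 1) ^ 2 - q.2) / 4 = ((2 * (q'.1 : ℤ) + 1) ^ 2 - q'.2) / 4 :=
      (Prod.ext_iff.mp he).2
    have e3 : q.1 = q'.1 := by omega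
    rw [e2, a2, ← e1] at a1
    exact Prod.ext e3 (by linarith)
  refine ⟨(range N ×ˢ S₀).image φ, ?_, ?_⟩
  · intro c hc
    rw [mem_image] at hc
    obtain ⟨q, hq, rfl⟩ := hc
    have b := hall q hq
    rw [mem_product, mem_range] at hq
    obtain ⟨hD0, hDY, _, _, _⟩ := hS₀ q.2 hq.2
    have hk : (q.1 : ℝ) + 1 ≤ N := by exact_mod_cast hq.1
    have hk0 : (0 : ℝ) ≤ q.1 := Nat.cast_nonneg _
    have hD0' : (0 : ℝ) < q.2 := by exact_mod_cast hD0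
    have hDY' : (q.2 : ℝ) ≤ (⌊H⌋₊ : ℝ) ^ 2 := by exact_mod_cast hDY
    have hDH : (q.2 : ℝ) ≤ H ^ 2 := by
      refine hDY'.trans ?_
      exact pow_le_pow_left₀ (Nat.cast_nonneg _) hfl 2
    have hcH : 2 * (q.1 : ℝ) + 1 ≤ H := by linarith
    refine ⟨?_, ?_, b.2.1, b.2.2⟩
    · have : ((φ q).1 : ℝ) = 2 * (q.1 : ℝ) + 1 := by
        change ((2 * (q.1 : ℤ) + 1 : ℤ) : ℝ) = _
        push_cast; ring
      rw [this, abs_of_nonneg (by linarith)]
      exact hcH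
    · have e : 4 * ((φ q).2 : ℝ) = (2 * (q.1 : ℝ) + 1) ^ 2 - q.2 := by
        have := b.1
        change 4 * ((((2 * (q.1 : ℤ) + 1) ^ 2 - q.2) / 4 : ℤ) : ℝ) = _
        exact_mod_cast this
      have hsq1 : (2 * (q.1 : ℝ) + 1) ^ 2 ≤ H ^ 2 := pow_le_pow_left₀ (by linarith) hcH 2
      have hsq0 : 0 ≤ (2 * (q.1 : ℝ) + 1) ^ 2 := sq_nonneg _
      rw [abs_le]
      constructor <;> nlinarith [sq_nonneg H]
  · rw [card_image_of_injOn hinj, card_product, card_range]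
    push_cast
    have hS₀' : m ^ 2 / (4 * K) ≤ (S₀.card : ℝ) := by
      refine le_trans ?_ hc₀
      have : m ^ 2 / K - m ≥ m ^ 2 / (2 * K) := by
        have e : m ^ 2 / K - m - m ^ 2 / (2 * K) = m * (m - 2 * K) / (2 * K) := by
          field_simp; ring
        have : 0 ≤ m * (m - 2 * K) / (2 * K) := by
          apply div_nonneg (mul_nonneg hm0.le (by linarith)) (by linarith)
        linarith
      have e2 : m ^ 2 / (4 * K) = (m ^ 2 / (2 * K)) / 2 := by field_simp; ring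
      rw [e2]
      linarith
    have hN4 : H / 4 ≤ (N : ℝ) := by linarith
    exact mul_le_mul hN4 hS₀' (by positivity) (by positivity)

end LOWp

open LOWp in
theorem LOW_main (h1 : LOC) (h2 : SQR) (h3 : PIG) : LOW := by
  intro δ₁ hδ₁
  set δ := min δ₁ 1 with hδdef
  have hδ : 0 < δ := lt_min hδ₁ one_pos
  have hδ1 : δ ≤ 1 := min_le_right _ _
  have hδ2 : δ ≤ δ₁ := min_le_left _ _
  set η := δ / 8 with hη
  have hη0 : 0 < η := by positivity
  have hη8 : η ≤ 1 / 8 := by rw [hη]; linarith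
  obtain ⟨y₀, hy₀⟩ := eventually_atTop.mp (card_PP (η / 2) (by positivity))
  -- large n
  have hsq : Tendsto (fun n : ℕ => (n : ℝ) ^ (1 / 2 : ℝ)) atTop atTop :=
    (tendsto_rpow_atTop (by norm_num)).comp tendsto_natCast_atTop_atTop
  have hexp : ∀ᶠ n : ℕ in atTop, (n : ℝ) ≤ 2 ^ ((n : ℝ) ^ (1 / 2 : ℝ) / 2) := by
    have h := (isLittleO_log_rpow_atTop (show (0 : ℝ) < 1 / 2 by norm_num)).bound
      (show (0 : ℝ) < Real.log 2 / 2 by positivity)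
    have h' := tendsto_natCast_atTop_atTop.eventually h
    filter_upwards [h', eventually_ge_atTop 1] with n hn hn1
    have hn0 : (1 : ℝ) ≤ n := by exact_mod_cast hn1
    have hl0 : 0 ≤ Real.log n := Real.log_nonneg hn0
    rw [Real.norm_of_nonneg hl0, Real.norm_of_nonneg (Real.rpow_nonneg (by linarith) _)] at hn
    calc (n : ℝ) = Real.exp (Real.log n) := (Real.exp_log (by linarith)).symm
      _ ≤ Real.exp (Real.log 2 * ((n : ℝ) ^ (1 / 2 : ℝ) / 2)) :=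
          Real.exp_le_exp.mpr (by linarith)
      _ = 2 ^ ((n : ℝ) ^ (1 / 2 : ℝ) / 2) := by
          rw [Real.rpow_def_of_pos (by norm_num : (0 : ℝ) < 2)]
  filter_upwards [card_PP (1 / 2) (by norm_num), hexp, hsq.eventually_ge_atTop (7 / δ),
    hsq.eventually_ge_atTop (8 / δ * 4), hsq.eventually_ge_atTop (Real.logb 2 (y₀ + 2)),
    eventually_ge_atTop 2, hsq.eventually_ge_atTop 2] with n hpc hn2 hn7 hn8 hny hn hn22 H hH
  set P : ℝ := (Nat.primeCounting n : ℝ) with hP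
  have hPn : (n : ℝ) ^ (1 / 2 : ℝ) ≤ P := by
    have e : (1 : ℝ) - 1 / 2 = 1 / 2 := by norm_num
    rw [e] at hpc
    exact hpc.trans (by rw [hP]; exact_mod_cast card_pc n)
  have hP0 : 0 < P := by linarith
  have hP7 : 7 ≤ δ * P := by
    have : 7 / δ ≤ P := hn7.trans hPn
    rwa [div_le_iff₀ hδ, mul_comm] at this
  have hP32 : 32 ≤ δ * P := by
    have : 8 / δ * 4 ≤ P := hn8.trans hPn
    have e : 8 / δ * 4 = 32 / δ := by ring
    rw [e, div_le_iff₀ hδ, mul_comm] at this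
    exact this
  have hHP : (2 : ℝ) ^ ((1 + δ) * P) ≤ H := by
    refine le_trans ?_ hH
    apply Real.rpow_le_rpow_of_exponent_le (by norm_num)
    exact mul_le_mul_of_nonneg_right (by linarith) hP0.le
  have hHP1 : (2 : ℝ) ^ P ≤ H := by
    refine le_trans ?_ hHP
    apply Real.rpow_le_rpow_of_exponent_le (by norm_num)
    nlinarith
  have hH4 : 4 ≤ H := by
    have : (2 : ℝ) ^ (2 : ℝ) ≤ 2 ^ P :=
      Real.rpow_le_rpow_of_exponent_le (by norm_num) (by linarith)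
    have e : (2 : ℝ) ^ (2 : ℝ) = 4 := by norm_num
    linarith
  have hH0 : 0 < H := by linarith
  -- `H ^ (η / 2) ≥ 4`
  have hHη : 4 ≤ H ^ (η / 2) := by
    have a1 : ((2 : ℝ) ^ P) ^ (η / 2) ≤ H ^ (η / 2) :=
      Real.rpow_le_rpow (by positivity) hHP1 (by positivity)
    rw [← Real.rpow_mul (by norm_num)] at a1
    have a2 : (2 : ℝ) ^ (2 : ℝ) ≤ 2 ^ (P * (η / 2)) := by
      apply Real.rpow_le_rpow_of_exponent_le (by norm_num)
      have f1 : P * (η / 2) = 1 / 16 * (δ * P) := by rw [hη]; ring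
      rw [f1]
      linarith
    have e : (2 : ℝ) ^ (2 : ℝ) = 4 := by norm_num
    linarith
  -- `H ^ (1 - η) ≥ n`
  have hHn : (n : ℝ) ≤ H ^ (1 - η) := by
    have a1 : ((2 : ℝ) ^ P) ^ (1 - η) ≤ H ^ (1 - η) :=
      Real.rpow_le_rpow (by positivity) hHP1 (by linarith)
    rw [← Real.rpow_mul (by norm_num)] at a1
    refine hn2.trans (le_trans ?_ a1)
    apply Real.rpow_le_rpow_of_exponent_le (by norm_num)
    nlinarith
  set Y := ⌊H⌋₊ with hY
  have hYle : (Y : ℝ) ≤ H := Nat.floor_le hH0.le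
  have hYgt : H < Y + 1 := Nat.lt_floor_add_one _
  have hYhalf : H / 2 ≤ Y := by linarith
  have hYy₀ : y₀ ≤ Y := by
    have a1 : Real.logb 2 (y₀ + 2) ≤ P := hny.trans hPn
    have a2 : (y₀ : ℝ) + 2 ≤ 2 ^ P := by
      rwa [Real.logb_le_iff_le_rpow (by norm_num) (by positivity)] at a1
    have : (y₀ : ℝ) ≤ Y := by linarith
    exact_mod_cast this
  have hc := hy₀ Y hYy₀
  set m : ℝ := (((Icc (n + 1) Y).filter Nat.Prime).card : ℝ) with hm
  have hmlow : H ^ (1 - η) ≤ m := by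
    have b1 : (((Icc 1 Y).filter Nat.Prime).card : ℝ) ≤ n + m := by
      rw [hm]; exact_mod_cast card_split n Y
    have b2 : H ^ (1 - η / 2) / 2 ≤ (Y : ℝ) ^ (1 - η / 2) := by
      have c1 : (H / 2) ^ (1 - η / 2) ≤ (Y : ℝ) ^ (1 - η / 2) :=
        Real.rpow_le_rpow (by positivity) hYhalf (by linarith)
      rw [Real.div_rpow hH0.le (by norm_num)] at c1
      refine le_trans ?_ c1
      apply div_le_div_of_nonneg_left (by positivity) (by positivity)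
      calc (2 : ℝ) ^ (1 - η / 2) ≤ 2 ^ (1 : ℝ) :=
            Real.rpow_le_rpow_of_exponent_le (by norm_num) (by linarith)
        _ = 2 := Real.rpow_one _
    have b3 : H ^ (1 - η / 2) = H ^ (1 - η) * H ^ (η / 2) := by
      rw [← Real.rpow_add hH0]; congr 1; ring
    have b4 : 4 * H ^ (1 - η) ≤ H ^ (1 - η / 2) := by
      rw [b3]
      have : 0 ≤ H ^ (1 - η) := by positivity
      nlinarith
    linarith
  have hK : (2 : ℝ) ^ (Nat.primeCounting n + 1) = 2 * 2 ^ P := by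
    rw [hP, Real.rpow_natCast, pow_succ]; ring
  have hmK : 2 * (2 : ℝ) ^ (Nat.primeCounting n + 1) ≤ m := by
    refine le_trans ?_ hmlow
    rw [hK]
    have a1 : ((2 : ℝ) ^ ((1 + δ) * P)) ^ (1 - η) ≤ H ^ (1 - η) :=
      Real.rpow_le_rpow (by positivity) hHP (by linarith)
    rw [← Real.rpow_mul (by norm_num)] at a1
    refine le_trans ?_ a1
    have e : (2 : ℝ) * (2 * 2 ^ P) = 2 ^ (P + 2) := by
      rw [Real.rpow_add (by norm_num)]
      have : (2 : ℝ) ^ (2 : ℝ) = 4 := by norm_num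
      rw [this]; ring
    rw [e]
    apply Real.rpow_le_rpow_of_exponent_le (by norm_num)
    have f1 : (1 + δ) * P * (1 - η) = P + δ * P * (7 / 8 - δ / 8) := by rw [hη]; ring
    have f2 : δ * P * (3 / 4) ≤ δ * P * (7 / 8 - δ / 8) :=
      mul_le_mul_of_nonneg_left (by linarith) (by positivity)
    rw [f1]
    linarith
  obtain ⟨S, hS, hcard⟩ := exists_set h1 h2 h3 hn hH4 rfl hm hmK
  refine ⟨S, hS, le_trans ?_ hcard⟩
  rw [hK]
  have hm2 : H ^ (2 - 2 * η) ≤ m ^ 2 := by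
    have e : H ^ (2 - 2 * η) = (H ^ (1 - η)) ^ 2 := by
      rw [← Real.rpow_natCast, ← Real.rpow_mul hH0.le]; congr 1; push_cast; ring
    rw [e]
    exact pow_le_pow_left₀ (by positivity) hmlow 2
  have h2P : (0 : ℝ) < 2 ^ P := by positivity
  have hH32 : 32 ≤ H ^ (δ - 2 * η) := by
    have a1 : ((2 : ℝ) ^ P) ^ (δ - 2 * η) ≤ H ^ (δ - 2 * η) :=
      Real.rpow_le_rpow (by positivity) hHP1 (by rw [hη]; linarith)
    rw [← Real.rpow_mul (by norm_num)] at a1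
    have a2 : (2 : ℝ) ^ (5 : ℝ) ≤ 2 ^ (P * (δ - 2 * η)) := by
      apply Real.rpow_le_rpow_of_exponent_le (by norm_num)
      have f1 : P * (δ - 2 * η) = 3 / 4 * (δ * P) := by rw [hη]; ring
      rw [f1]
      linarith
    have e : (2 : ℝ) ^ (5 : ℝ) = 32 := by norm_num
    linarith
  have e3 : H ^ (3 - δ) * H ^ (δ - 2 * η) = H * H ^ (2 - 2 * η) := by
    rw [← Real.rpow_add hH0]
    nth_rewrite 2 [← Real.rpow_one H]
    rw [← Real.rpow_add hH0]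
    congr 1; ring
  have e4 : H ^ (3 - δ₁) ≤ H ^ (3 - δ) :=
    Real.rpow_le_rpow_of_exponent_le (by linarith) (by linarith)
  have e5 : 32 * H ^ (3 - δ) ≤ H * m ^ 2 := by
    have c1 : 0 ≤ H ^ (3 - δ) := by positivity
    have c2 : H ^ (3 - δ) * 32 ≤ H ^ (3 - δ) * H ^ (δ - 2 * η) :=
      mul_le_mul_of_nonneg_left hH32 c1
    have c3 : H * H ^ (2 - 2 * η) ≤ H * m ^ 2 := mul_le_mul_of_nonneg_left hm2 hH0.le
    linarith
  have e6 : H / 4 * (m ^ 2 / (4 * (2 * 2 ^ P))) = H * m ^ 2 / 32 / 2 ^ P := by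
    field_simp; ring
  rw [e6]
  apply div_le_div_of_nonneg_right _ h2P.le
  linarith

end Pool.Agent.T2H32.RRT
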