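import Pool.Agent.T2H32.RRT.Stm

/-!
# Package PIG: many products of two primes which are squares modulo all small odd primes
-/

set_option autoImplicit false

namespace Pool.Agent.T2H32.RRT

open Finset

namespace PIGx

/-- the odd primes up to `n` -/
def R (n : ℕ) : Finset ℕ := (Finset.range (n + 1)).filter fun p => p.Prime ∧ p ≠ 2

/-- the key of a prime -/
noncomputable def key (n q : ℕ) : ℕ × Finset ℕ :=
  open Classical in (q % 8, (R n).filter fun p => IsSquare (q : ZMod p))

theorem card_R (n : ℕ) (hn : 2 ≤ n) : (R n).card + 1 = Nat.primeCounting n := by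
  have h1 : Nat.primeCounting n = ((Finset.range (n + 1)).filter Nat.Prime).card := by
    rw [Nat.primeCounting, Nat.primeCounting', Nat.count_eq_card_filter_range]
  have h2 : (Finset.range (n + 1)).filter Nat.Prime = insert 2 (R n) := by
    ext p
    simp only [R, Finset.mem_filter, Finset.mem_range, Finset.mem_insert]
    constructor
    · rintro ⟨h, hp⟩
      by_cases hp2 : p = 2
      · exact Or.inl hp2
      · exact Or.inr ⟨h, hp, hp2⟩
    · rintro (h | ⟨h, hp, _⟩)
      · subst h; exact ⟨by omega, Nat.prime_two⟩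
      · exact ⟨h, hp⟩
  rw [h1, h2, Finset.card_insert_of_notMem (by simp [R])]

/-- the possible keys -/
def V (n : ℕ) : Finset (ℕ × Finset ℕ) := ({1, 3, 5, 7} : Finset ℕ) ×ˢ (R n).powerset

theorem card_V (n : ℕ) (hn : 2 ≤ n) : (V n).card = 2 ^ (Nat.primeCounting n + 1) := by
  rw [V, Finset.card_product, Finset.card_powerset, ← card_R n hn]
  have : ({1, 3, 5, 7} : Finset ℕ).card = 4 := by decide
  rw [this, pow_add, pow_add]
  ring

theorem odd_of (n q : ℕ) (hn : 2 ≤ n) (hq : q.Prime) (hnq : n < q) : q % 2 = 1 := by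
  rcases hq.eq_two_or_odd with h | h
  · omega
  · exact h

theorem key_mem (n q : ℕ) (hn : 2 ≤ n) (hq : q.Prime) (hnq : n < q) : key n q ∈ V n := by
  classical
  have h1 := odd_of n q hn hq hnq
  rw [V, Finset.mem_product]
  constructor
  · simp only [key, Finset.mem_insert, Finset.mem_singleton]
    omega
  · simp only [key, Finset.mem_powerset]
    exact Finset.filter_subset _ _

theorem square_mul (p : ℕ) (hp : p.Prime) (a b : ℕ) (ha : ¬ p ∣ a) (hb : ¬ p ∣ b)
    (hab : IsSquare (a : ZMod p) ↔ IsSquare (b : ZMod p)) : IsSquare ((a : ZMod p) * b) := by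
  have := Fact.mk hp
  by_cases h : IsSquare (a : ZMod p)
  · exact h.mul (hab.mp h)
  · have h' : ¬ IsSquare (b : ZMod p) := fun hb' => h (hab.mpr hb')
    have ha0 : (a : ZMod p) ≠ 0 := by
      rw [Ne, ZMod.natCast_eq_zero_iff]; exact ha
    have hb0 : (b : ZMod p) ≠ 0 := by
      rw [Ne, ZMod.natCast_eq_zero_iff]; exact hb
    have e1 : legendreSym p (a : ℤ) = -1 := by
      rw [legendreSym.eq_neg_one_iff]
      simpa using h
    have e2 : legendreSym p (b : ℤ) = -1 := by
      rw [legendreSym.eq_neg_one_iff]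
      simpa using h'
    have e3 : legendreSym p ((a : ℤ) * b) = 1 := by
      rw [legendreSym.mul, e1, e2]; norm_num
    have hne : (((a : ℤ) * b : ℤ) : ZMod p) ≠ 0 := by
      push_cast
      exact mul_ne_zero ha0 hb0
    have e4 := (legendreSym.eq_one_iff p hne).mp e3
    simpa using e4

theorem sq_dvd (p : ℕ) (a : ℕ) (h : IsSquare (a : ZMod p)) : ∃ t : ℤ, (p : ℤ) ∣ (a : ℤ) - t ^ 2 := by
  obtain ⟨r, hr⟩ := h
  obtain ⟨t, rfl⟩ := ZMod.intCast_surjective r
  refine ⟨t, ?_⟩
  rw [← ZMod.intCast_zmod_eq_zero_iff_dvd]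
  push_cast
  rw [hr]
  ring

end PIGx

open PIGx in
theorem PIG_main : PIG := by
  classical
  intro n Y hn
  set T := (Icc (n + 1) Y).filter Nat.Prime with hT
  have hTm : ∀ q ∈ T, q.Prime ∧ n < q ∧ q ≤ Y := by
    intro q hq
    have h := Finset.mem_filter.mp hq
    have h' := Finset.mem_Icc.mp h.1
    exact ⟨h.2, by omega, h'.2⟩
  set A := (T ×ˢ T).filter fun z => key n z.1 = key n z.2 ∧ z.1 < z.2 with hA
  set B := (T ×ˢ T).filter fun z => key n z.1 = key n z.2 ∧ z.2 < z.1 with hB
  set P := (T ×ˢ T).filter fun z => key n z.1 = key n z.2 with hP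
  have hAm : ∀ z ∈ A, z.1 ∈ T ∧ z.2 ∈ T ∧ key n z.1 = key n z.2 ∧ z.1 < z.2 := by
    intro z hz
    have h := Finset.mem_filter.mp hz
    have h' := Finset.mem_product.mp h.1
    exact ⟨h'.1, h'.2, h.2.1, h.2.2⟩
  -- the counting
  have hAB : A.card = B.card := by
    apply Finset.card_bij (fun z _ => (z.2, z.1))
    · intro z hz
      obtain ⟨h1, h2, h3, h4⟩ := hAm z hz
      rw [hB, Finset.mem_filter, Finset.mem_product]
      exact ⟨⟨h2, h1⟩, h3.symm, h4⟩
    · rintro ⟨a, b⟩ _ ⟨c, d⟩ _ h
      simp only [Prod.mk.injEq] at h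
      rw [h.1, h.2]
    · rintro ⟨a, b⟩ hz
      have h := Finset.mem_filter.mp hz
      have h' := Finset.mem_product.mp h.1
      refine ⟨(b, a), ?_, rfl⟩
      rw [hA, Finset.mem_filter, Finset.mem_product]
      exact ⟨⟨h'.2, h'.1⟩, h.2.1.symm, h.2.2⟩
  have hPc : P.card = A.card + B.card + T.card := by
    have hdiag : ((T ×ˢ T).filter fun z => z.1 = z.2).card = T.card := by
      apply Finset.card_bij (fun z _ => z.1)
      · intro z hz
        exact (Finset.mem_product.mp (Finset.mem_filter.mp hz).1).1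
      · rintro ⟨a, b⟩ hz ⟨c, d⟩ hw h
        have h1 := (Finset.mem_filter.mp hz).2
        have h2 := (Finset.mem_filter.mp hw).2
        simp only at h h1 h2
        subst h1 h2 h
        rfl
      · intro a ha
        exact ⟨(a, a), Finset.mem_filter.mpr ⟨Finset.mem_product.mpr ⟨ha, ha⟩, rfl⟩, rfl⟩
    have hU : P = (A ∪ B) ∪ ((T ×ˢ T).filter fun z => z.1 = z.2) := by
      ext z
      simp only [hP, hA, hB, Finset.mem_union, Finset.mem_filter]
      constructor
      · rintro ⟨h1, h2⟩
        rcases lt_trichotomy z.1 z.2 with h | h | h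
        · exact Or.inl (Or.inl ⟨h1, h2, h⟩)
        · exact Or.inr ⟨h1, h⟩
        · exact Or.inl (Or.inr ⟨h1, h2, h⟩)
      · rintro ((⟨h1, h2, _⟩ | ⟨h1, h2, _⟩) | ⟨h1, h2⟩)
        · exact ⟨h1, h2⟩
        · exact ⟨h1, h2⟩
        · exact ⟨h1, by rw [h2]⟩
    rw [hU, Finset.card_union_of_disjoint, Finset.card_union_of_disjoint, hdiag]
    · rw [Finset.disjoint_left]
      intro z hz hw
      have h1 := (Finset.mem_filter.mp hz).2.2
      have h2 := (Finset.mem_filter.mp hw).2.2
      omega
    · rw [Finset.disjoint_left]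
      intro z hz hw
      have h2 := (Finset.mem_filter.mp hw).2
      rcases Finset.mem_union.mp hz with h | h
      · have h1 := (Finset.mem_filter.mp h).2.2
        omega
      · have h1 := (Finset.mem_filter.mp h).2.2
        omega
  have hTc : T.card = ∑ v ∈ V n, (T.filter fun q => key n q = v).card :=
    Finset.card_eq_sum_card_fiberwise fun q hq => by
      obtain ⟨h1, h2, _⟩ := hTm q hq
      exact key_mem n q hn h1 h2
  have hPs : P.card = ∑ v ∈ V n, (T.filter fun q => key n q = v).card ^ 2 := by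
    rw [Finset.card_eq_sum_card_fiberwise (f := fun z : ℕ × ℕ => key n z.1) (t := V n)]
    · apply Finset.sum_congr rfl
      intro v _
      rw [sq, ← Finset.card_product]
      congr 1
      ext z
      simp only [hP, Finset.mem_filter, Finset.mem_product]
      constructor
      · rintro ⟨⟨⟨h1, h2⟩, h3⟩, h4⟩
        exact ⟨⟨h1, h4⟩, ⟨h2, by rw [← h3]; exact h4⟩⟩
      · rintro ⟨⟨h1, h4⟩, ⟨h2, h5⟩⟩
        exact ⟨⟨⟨h1, h2⟩, by rw [h4, h5]⟩, h4⟩
    · intro z hz
      have h := (Finset.mem_product.mp (Finset.mem_filter.mp hz).1).1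
      obtain ⟨h1, h2, _⟩ := hTm z.1 h
      exact key_mem n z.1 hn h1 h2
  have hCS : (T.card : ℝ) ^ 2 ≤ 2 ^ (Nat.primeCounting n + 1) * (P.card : ℝ) := by
    have h := sq_sum_le_card_mul_sum_sq (s := V n) (f := fun v => ((T.filter fun q => key n q = v).card : ℝ))
    rw [card_V n hn] at h
    rw [hTc, hPs]
    push_cast at h ⊢
    exact h
  refine ⟨A.image fun z => ((z.1 * z.2 : ℕ) : ℤ), ?_, ?_⟩
  · intro D hD
    obtain ⟨z, hz, rfl⟩ := Finset.mem_image.mp hD
    obtain ⟨h1, h2, h3, h4⟩ := hAm z hz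
    obtain ⟨hq, hqn, hqY⟩ := hTm _ h1
    obtain ⟨hq', hqn', hqY'⟩ := hTm _ h2
    have hodd := odd_of n z.1 hn hq hqn
    have hk1 : z.1 % 8 = z.2 % 8 := congrArg Prod.fst h3
    have hk2 : ((R n).filter fun p => IsSquare (z.1 : ZMod p)) = ((R n).filter fun p => IsSquare (z.2 : ZMod p)) := by
      have := congrArg Prod.snd h3
      simpa only [key] using this
    refine ⟨?_, ?_, ?_, ?_, ?_⟩
    · have : 0 < z.1 * z.2 := Nat.mul_pos hq.pos hq'.pos
      exact_mod_cast this
    · have : z.1 * z.2 ≤ Y ^ 2 := by rw [sq]; exact Nat.mul_le_mul hqY hqY'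
      exact_mod_cast this
    · rw [Int.isSquare_natCast_iff]
      rintro ⟨r, hr⟩
      have hd : z.1 ∣ r * r := hr ▸ Dvd.intro _ rfl
      have hd' : z.1 ∣ r := by
        rcases (Nat.Prime.dvd_mul hq).mp hd with h | h <;> exact h
      obtain ⟨c, rfl⟩ := hd'
      have e : z.2 = z.1 * (c * c) := by
        apply Nat.eq_of_mul_eq_mul_left hq.pos
        rw [hr]; ring
      have hd2 : z.1 ∣ z.2 := ⟨_, e⟩
      have := (Nat.prime_dvd_prime_iff_eq hq hq').mp hd2
      omega
    · have : (z.1 * z.2) % 8 = 1 := by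
        rw [Nat.mul_mod, ← hk1]
        have h8 : z.1 % 8 = 1 ∨ z.1 % 8 = 3 ∨ z.1 % 8 = 5 ∨ z.1 % 8 = 7 := by omega
        rcases h8 with h | h | h | h <;> rw [h]
      exact_mod_cast this
    · intro p hp hp2 hpn
      have hpR : p ∈ R n := Finset.mem_filter.mpr ⟨Finset.mem_range.mpr (by omega), hp, hp2⟩
      have hd1 : ¬ p ∣ z.1 := fun h => by
        have := (Nat.prime_dvd_prime_iff_eq hp hq).mp h
        omega
      have hd2 : ¬ p ∣ z.2 := fun h => by
        have := (Nat.prime_dvd_prime_iff_eq hp hq').mp h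
        omega
      constructor
      · intro h
        have h' : p ∣ z.1 * z.2 := by exact_mod_cast h
        rcases (Nat.Prime.dvd_mul hp).mp h' with h | h
        · exact hd1 h
        · exact hd2 h
      · apply sq_dvd
        push_cast
        apply square_mul p hp z.1 z.2 hd1 hd2
        constructor
        · intro h
          have : p ∈ ((R n).filter fun p => IsSquare (z.1 : ZMod p)) := Finset.mem_filter.mpr ⟨hpR, h⟩
          rw [hk2] at this
          exact (Finset.mem_filter.mp this).2
        · intro h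
          have : p ∈ ((R n).filter fun p => IsSquare (z.2 : ZMod p)) := Finset.mem_filter.mpr ⟨hpR, h⟩
          rw [← hk2] at this
          exact (Finset.mem_filter.mp this).2
  · rw [Finset.card_image_of_injOn]
    · have h1 : (P.card : ℝ) = 2 * A.card + T.card := by
        rw [hPc, ← hAB]; push_cast; ring
      have hK : (0 : ℝ) < 2 ^ (Nat.primeCounting n + 1) := by positivity
      have h2 : (T.card : ℝ) ^ 2 / 2 ^ (Nat.primeCounting n + 1) ≤ P.card := by
        rw [div_le_iff₀ hK]
        linarith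
      linarith
    · intro z hz w hw h
      obtain ⟨h1, h2, h3, h4⟩ := hAm z hz
      obtain ⟨g1, g2, g3, g4⟩ := hAm w hw
      have hz1 := (hTm _ h1).1
      have hz2 := (hTm _ h2).1
      have hw1 := (hTm _ g1).1
      have hw2 := (hTm _ g2).1
      have he : z.1 * z.2 = w.1 * w.2 := by
        simp only at h
        exact_mod_cast h
      have hd : z.1 ∣ w.1 * w.2 := he ▸ Dvd.intro _ rfl
      rcases (Nat.Prime.dvd_mul hz1).mp hd with hd | hd
      · have e1 := (Nat.prime_dvd_prime_iff_eq hz1 hw1).mp hd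
        have e2 : z.2 = w.2 := by
          rw [e1] at he
          exact Nat.eq_of_mul_eq_mul_left hw1.pos he
        exact Prod.ext e1 e2
      · exfalso
        have e1 := (Nat.prime_dvd_prime_iff_eq hz1 hw2).mp hd
        have e2 : z.2 = w.1 := by
          rw [e1, mul_comm] at he
          exact Nat.eq_of_mul_eq_mul_right hw2.pos he
        omega

end Pool.Agent.T2H32.RRT
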