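import Pool.Agent.T2H32.RRT.Stm

/-!
# Few exceptional pairs up to large heights (package PRS)
-/

set_option autoImplicit false

open Finset Filter Topology

namespace Pool.Agent.T2H32.RRT

open Pool.Agent.R920.CH Pool.Agent.R852.LK

/-- the case of small `ε` -/
theorem PRS_small (h : CNT) (ε : ℝ) (hε : 0 < ε) (hε3 : ε < 1 / 3) :
    ∀ᶠ n : ℕ in atTop, ∀ H : ℝ, 1 ≤ H →
  H ≤ Real.exp ((n : ℝ) ^ (1 / 3 - ε)) → ∀ S : Finset (ℤ × ℤ),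
    (∀ c ∈ S, |(c.1 : ℝ)| ≤ H ∧ |(c.2 : ℝ)| ≤ H ^ 2 ∧
      RiemannRoch n (poly2 c.1 c.2) ∧ ¬ ∃ a b : ℤ, c.1 = a + b ∧ c.2 = a * b) →
      (S.card : ℝ) ≤ H ^ 2 / (n : ℝ) ^ (2 * Real.exp (1 / 2) - ε) := by
  classical
  have e1 : ∀ᶠ n : ℕ in atTop, (9 : ℝ) ≤ (n : ℝ) ^ (ε / 2) :=
    tendsto_natCast_atTop_atTop.eventually
      ((tendsto_rpow_atTop (by positivity : (0 : ℝ) < ε / 2)).eventually_ge_atTop _)
  have e2 : ∀ᶠ n : ℕ in atTop, (4 : ℝ) ≤ (n : ℝ) ^ (1 / 3 - ε) :=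
    tendsto_natCast_atTop_atTop.eventually
      ((tendsto_rpow_atTop (by linarith : (0 : ℝ) < 1 / 3 - ε)).eventually_ge_atTop _)
  filter_upwards [h (ε / 2) (by positivity), e1, e2, eventually_ge_atTop 5]
    with n hcount h9 h4 hn5 H hH1 hHA S hS
  have hn0 : (0 : ℝ) < n := by positivity
  have hH0 : 0 < H := by linarith
  have hX : 5 * H ^ 2 ≤ Real.exp ((n : ℝ) ^ (1 / 3 - ε / 2)) := by
    have h1 : (n : ℝ) ^ (1 / 3 - ε / 2) = (n : ℝ) ^ (1 / 3 - ε) * (n : ℝ) ^ (ε / 2) := by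
      rw [← Real.rpow_add hn0]; congr 1; ring
    have h2 : H ^ 2 ≤ Real.exp ((n : ℝ) ^ (1 / 3 - ε)) ^ 2 := pow_le_pow_left₀ hH0.le hHA 2
    have h3 : (5 : ℝ) ≤ Real.exp ((n : ℝ) ^ (1 / 3 - ε)) := by
      have := Real.add_one_le_exp ((n : ℝ) ^ (1 / 3 - ε))
      linarith
    calc 5 * H ^ 2 ≤ Real.exp ((n : ℝ) ^ (1 / 3 - ε)) * Real.exp ((n : ℝ) ^ (1 / 3 - ε)) ^ 2 :=
          mul_le_mul h3 h2 (by positivity) (Real.exp_pos _).le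
      _ = Real.exp (3 * (n : ℝ) ^ (1 / 3 - ε)) := by
          rw [← pow_succ', ← Real.exp_nat_mul]
          norm_num
      _ ≤ Real.exp ((n : ℝ) ^ (1 / 3 - ε / 2)) := by
          rw [h1]
          apply Real.exp_le_exp.2
          nlinarith
  set S' : Finset ℤ := S.image fun c => c.1 ^ 2 - 4 * c.2 with hS'
  have hc' := hcount (5 * H ^ 2) (by positivity) hX S' (by
    intro D hD
    obtain ⟨c, hc, rfl⟩ := Finset.mem_image.mp hD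
    obtain ⟨h1, h2, h3, h4⟩ := hS c hc
    refine ⟨?_, fun hsq => h4 (split_of_square _ _ hsq), c.1, c.2, h3, rfl⟩
    push_cast
    have h5 : (c.1 : ℝ) ^ 2 ≤ H ^ 2 := by
      rw [← sq_abs]; exact pow_le_pow_left₀ (abs_nonneg _) h1 2
    have h6 := abs_le.mp h2
    rw [abs_le]
    constructor
    · nlinarith [sq_nonneg (c.1 : ℝ)]
    · nlinarith [sq_nonneg (c.1 : ℝ)])
  -- the map `c ↦ (c₁, D)`
  have hcard : S.card ≤ (Finset.Icc (-(⌊H⌋₊ : ℤ)) ⌊H⌋₊ ×ˢ S').card := by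
    apply Finset.card_le_card_of_injOn (fun c => (c.1, c.1 ^ 2 - 4 * c.2))
    · intro c hc
      rw [Finset.mem_coe, Finset.mem_product]
      refine ⟨?_, Finset.mem_image.mpr ⟨c, hc, rfl⟩⟩
      rw [Finset.mem_Icc]
      have h1 := (hS c hc).1
      have h2 : c.1.natAbs ≤ ⌊H⌋₊ := by
        apply Nat.le_floor
        rw [Nat.cast_natAbs, Int.cast_abs]
        exact h1
      show -(⌊H⌋₊ : ℤ) ≤ c.1 ∧ c.1 ≤ (⌊H⌋₊ : ℤ)
      omega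
    · intro c hc d hd hcd
      simp only [Prod.mk.injEq] at hcd
      obtain ⟨h1, h2⟩ := hcd
      rw [h1] at h2
      exact Prod.ext h1 (by linarith)
  rw [Finset.card_product, Int.card_Icc] at hcard
  have h1 : (((⌊H⌋₊ : ℤ) + 1 - -(⌊H⌋₊ : ℤ)).toNat : ℝ) ≤ 3 * H := by
    have e : ((⌊H⌋₊ : ℤ) + 1 - -(⌊H⌋₊ : ℤ)).toNat = 2 * ⌊H⌋₊ + 1 := by omega
    rw [e]
    push_cast
    linarith [Nat.floor_le hH0.le]
  have h2 : (S.card : ℝ) ≤ (3 * H) * (S'.card : ℝ) := by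
    calc (S.card : ℝ) ≤ ((((⌊H⌋₊ : ℤ) + 1 - -(⌊H⌋₊ : ℤ)).toNat * S'.card : ℕ) : ℝ) := by
          exact_mod_cast hcard
      _ = (((⌊H⌋₊ : ℤ) + 1 - -(⌊H⌋₊ : ℤ)).toNat : ℝ) * (S'.card : ℝ) := by push_cast; ring
      _ ≤ _ := mul_le_mul_of_nonneg_right h1 (Nat.cast_nonneg _)
  have h3 : √(5 * H ^ 2) ≤ 3 * H := by
    rw [Real.sqrt_le_left (by positivity)]
    nlinarith
  have hp : 0 < (n : ℝ) ^ (2 * Real.exp (1 / 2) - ε / 2) := Real.rpow_pos_of_pos hn0 _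
  have hp' : 0 < (n : ℝ) ^ (2 * Real.exp (1 / 2) - ε) := Real.rpow_pos_of_pos hn0 _
  have e : (n : ℝ) ^ (2 * Real.exp (1 / 2) - ε / 2) =
      (n : ℝ) ^ (2 * Real.exp (1 / 2) - ε) * (n : ℝ) ^ (ε / 2) := by
    rw [← Real.rpow_add hn0]; congr 1; ring
  calc (S.card : ℝ) ≤ (3 * H) * (S'.card : ℝ) := h2
    _ ≤ (3 * H) * (√(5 * H ^ 2) / (n : ℝ) ^ (2 * Real.exp (1 / 2) - ε / 2)) := by gcongr
    _ ≤ (3 * H) * (3 * H / (n : ℝ) ^ (2 * Real.exp (1 / 2) - ε / 2)) := by gcongr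
    _ = 9 * H ^ 2 / (n : ℝ) ^ (2 * Real.exp (1 / 2) - ε / 2) := by ring
    _ ≤ (n : ℝ) ^ (ε / 2) * H ^ 2 / (n : ℝ) ^ (2 * Real.exp (1 / 2) - ε / 2) := by gcongr
    _ = H ^ 2 / (n : ℝ) ^ (2 * Real.exp (1 / 2) - ε) := by
        rw [e]
        have : (n : ℝ) ^ (ε / 2) ≠ 0 := (Real.rpow_pos_of_pos hn0 _).ne'
        field_simp

theorem PRS_main (h : CNT) : PRS := by
  intro ε hε
  rcases lt_or_ge ε (1 / 3) with hlt | hge
  · exact PRS_small h ε hε hlt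
  · filter_upwards [PRS_small h (1 / 6) (by norm_num) (by norm_num), eventually_ge_atTop 1]
      with n hn hn1 H hH1 hHA S hS
    have hn1' : (1 : ℝ) ≤ n := by exact_mod_cast hn1
    have h1 : Real.exp ((n : ℝ) ^ (1 / 3 - ε)) ≤ Real.exp ((n : ℝ) ^ ((1 : ℝ) / 3 - 1 / 6)) := by
      apply Real.exp_le_exp.2
      exact Real.rpow_le_rpow_of_exponent_le hn1' (by linarith)
    refine le_trans (hn H hH1 (le_trans hHA h1) S hS) ?_
    have h2 : (n : ℝ) ^ (2 * Real.exp (1 / 2) - ε) ≤ (n : ℝ) ^ (2 * Real.exp (1 / 2) - 1 / 6) :=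
      Real.rpow_le_rpow_of_exponent_le hn1' (by linarith)
    exact div_le_div_of_nonneg_left (by positivity) (Real.rpow_pos_of_pos (by linarith) _) h2

end Pool.Agent.T2H32.RRT
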