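import Pool.Agent.T2H32.RRT.Stm
import Pool.Agent.H38R2.CG.PV

set_option autoImplicit false

namespace Pool.Agent.T2H32.RRT

open Finset Filter Topology Pool.Agent.R920.CH Pool.Agent.R852.LK

lemma PV_nonunit (D : ℤ) (hD : D ≠ 0) (m : ℕ) (h : ¬ Nat.Coprime m (4 * D.natAbs)) :
    ps D m = 0 := by
  unfold ps
  split_ifs with ho
  · have hm0 : m ≠ 0 := by rintro rfl; simp at ho
    haveI : NeZero m := ⟨hm0⟩
    rw [jacobiSym.eq_zero_iff_not_coprime]
    intro hg
    apply h
    have h1 : Nat.gcd D.natAbs m = 1 := hg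
    have h2 : Nat.Coprime m D.natAbs := Nat.Coprime.symm h1
    have h3 : Nat.Coprime m 4 := by
      have : Nat.Coprime m (2 ^ 2) := Nat.Coprime.pow_right 2 (Nat.coprime_two_right.mpr ho)
      simpa using this
    exact Nat.Coprime.mul_right h3 h2
  · rfl

/-- the character -/
noncomputable def PVchi (D : ℤ) (hD : D ≠ 0) : DirichletCharacter ℂ (4 * D.natAbs) where
  toFun a := (ps D a.val : ℂ)
  map_one' := by
    have hP : 1 < 4 * D.natAbs := by
      have := Int.natAbs_pos.mpr hD; omega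
    haveI : Fact (1 < 4 * D.natAbs) := ⟨hP⟩
    rw [ZMod.val_one, ps_one]; simp
  map_mul' a b := by
    rw [ZMod.val_mul, ps_mod, ps_mul]; push_cast; rfl
  map_nonunit' a ha := by
    have hP : 4 * D.natAbs ≠ 0 := by
      have := Int.natAbs_pos.mpr hD; omega
    haveI : NeZero (4 * D.natAbs) := ⟨hP⟩
    have h1 : ¬ Nat.Coprime a.val (4 * D.natAbs) := by
      rw [← ZMod.isUnit_iff_coprime, ZMod.natCast_zmod_val]
      exact ha
    show (ps D a.val : ℂ) = 0
    rw [PV_nonunit D hD _ h1]; simp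

lemma PVchi_nat (D : ℤ) (hD : D ≠ 0) (m : ℕ) :
    PVchi D hD (m : ZMod (4 * D.natAbs)) = (ps D m : ℂ) := by
  show (ps D (m : ZMod (4 * D.natAbs)).val : ℂ) = _
  rw [ZMod.val_natCast, ps_mod]

theorem PV_main : PV := by
  intro D hD hsq M
  have hD1 : 1 ≤ D.natAbs := Int.natAbs_pos.mpr hD
  have hDr : ((D.natAbs : ℕ) : ℝ) = |(D : ℝ)| := by
    rw [Nat.cast_natAbs, Int.cast_abs]
  have hD1r : (1 : ℝ) ≤ |(D : ℝ)| := by rw [← hDr]; exact_mod_cast hD1
  have hne : PVchi D hD ≠ 1 := by
    intro h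
    obtain ⟨b, hb1, hb2⟩ := exists_neg D hD hsq
    have h1 := PVchi_nat D hD b
    have h2 : ps D b = -1 := by unfold ps; rw [if_pos hb1, hb2]
    rw [h2, h] at h1
    by_cases hu : IsUnit (b : ZMod (4 * D.natAbs))
    · rw [MulChar.one_apply hu] at h1
      have h3 : (1 : ℝ) = -1 := by
        have := congrArg Complex.re h1
        simpa using this
      norm_num at h3
    · rw [MulChar.map_nonunit _ hu] at h1
      have h3 : (0 : ℝ) = -1 := by
        have := congrArg Complex.re h1
        simpa using this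
      norm_num at h3
  have h := Pool.Agent.H38R2.CG.PVh.sum_le (4 * D.natAbs) (PVchi D hD) (by omega) hne (M - 1)
  have hR : 4 * √((4 * D.natAbs : ℕ) : ℝ) * (1 + Real.log ((4 * D.natAbs : ℕ) : ℝ)) =
      8 * √|(D : ℝ)| * (1 + Real.log (4 * |(D : ℝ)|)) := by
    push_cast
    rw [hDr]
    have e1 : √(4 * |(D : ℝ)|) = 2 * √|(D : ℝ)| := by
      rw [Real.sqrt_mul (by norm_num), show (4 : ℝ) = 2 ^ 2 by norm_num, Real.sqrt_sq (by norm_num)]
    rw [e1]; ring
  rw [hR] at h
  refine le_trans (le_of_eq ?_) h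
  have e2 : ∑ n ∈ Icc 1 (M - 1), PVchi D hD (n : ZMod (4 * D.natAbs)) =
      (((∑ m ∈ range M, ps D m : ℤ) : ℝ) : ℂ) := by
    have e3 : ∑ m ∈ range M, ps D m = ∑ m ∈ Icc 1 (M - 1), ps D m := by
      symm
      apply Finset.sum_subset
      · intro m hm
        rw [Finset.mem_Icc] at hm
        rw [Finset.mem_range]; omega
      · intro m hm hm'
        have hm0 : m = 0 := by
          by_contra h0
          apply hm'
          rw [Finset.mem_range] at hm
          rw [Finset.mem_Icc]; omega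
        subst hm0
        unfold ps
        rw [if_neg (by simp)]
    rw [e3]
    push_cast
    exact Finset.sum_congr rfl fun m _ => PVchi_nat D hD m
  rw [e2, Complex.norm_real, Real.norm_eq_abs]

end Pool.Agent.T2H32.RRT
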