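import Pool.Agent.T2H32.RRT.Stm

set_option autoImplicit false

open Finset Filter Topology

namespace Pool.Agent.T2H32.RRT

open Pool.Agent.R920.CH Pool.Agent.R852.LK Pool.Agent.R852.BC

lemma ps_prime_eq (D : ℤ) (p : ℕ) [Fact p.Prime] (hp2 : p ≠ 2) : ps D p = legendreSym p D := by
  unfold ps
  rw [if_pos ((Fact.out : p.Prime).odd_of_ne_two hp2), ← jacobiSym.legendreSym.to_jacobiSym]

theorem SMA_main : SMA := by
  classical
  intro ε hε
  filter_upwards [main_sub 2 1 12 ε (by norm_num) hε] with n hn f hf hfX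
  set E : Finset ℕ := (PR n).filter fun p => ps f p = -1 with hE
  have hEp : ∀ p ∈ E, p < n ∧ p.Prime ∧ p ≠ 2 ∧ ps f p = -1 := by
    intro p hp
    rw [hE, Finset.mem_filter, mem_PR] at hp
    exact ⟨hp.1.1, hp.1.2.1, hp.1.2.2, hp.2⟩
  refine ⟨∏ p ∈ E, p, ?_, ?_⟩
  · by_contra hlt
    push Not at hlt
    apply hf
    have hP0 : ((∏ p ∈ E, p : ℕ) : ℤ) ≠ 0 := by
      rw [Int.natCast_ne_zero]
      exact Finset.prod_ne_zero_iff.mpr fun p hp => (hEp p hp).2.1.ne_zero
    refine hn f ((∏ p ∈ E, p : ℕ) : ℤ) hP0 ?_ hfX ?_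
    · have h1 : |(((∏ p ∈ E, p : ℕ) : ℤ) : ℝ)| = ((∏ p ∈ E, p : ℕ) : ℝ) := by
        rw [Int.cast_natCast, Nat.abs_cast]
      rw [h1]
      exact hlt.le
    · intro p hp h2 hpn hpP
      haveI : Fact p.Prime := ⟨hp⟩
      have hp2 : p ≠ 2 := by omega
      by_cases hpf : (p : ℤ) ∣ f
      · exact ⟨0, by simpa using hpf⟩
      · have h0 : (f : ZMod p) ≠ 0 := fun h' =>
          hpf ((ZMod.intCast_zmod_eq_zero_iff_dvd f p).mp h')
        have h3 : legendreSym p f = 1 := by
          rcases legendreSym.eq_one_or_neg_one p h0 with h | h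
          · exact h
          · exfalso
            apply hpP
            have hpE : p ∈ E := by
              rw [hE, Finset.mem_filter, mem_PR, ps_prime_eq f p hp2]
              exact ⟨⟨by omega, hp, hp2⟩, h⟩
            exact_mod_cast Finset.dvd_prod_of_mem (fun p => p) hpE
        rw [legendreSym.eq_one_iff p h0] at h3
        obtain ⟨r, hr⟩ := h3
        refine ⟨(r.val : ℤ), ?_⟩
        rw [← ZMod.intCast_zmod_eq_zero_iff_dvd]
        push_cast
        rw [ZMod.natCast_zmod_val, hr]
        ring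
  · intro s hs
    rw [Int.natCast_dvd]
    apply Finset.prod_primes_dvd
    · intro p hp
      exact (hEp p hp).2.1.prime
    · intro p hp
      obtain ⟨hpn, hpp, hp2, hps⟩ := hEp p hp
      haveI : Fact p.Prime := ⟨hpp⟩
      rw [← Int.natCast_dvd]
      by_contra hsp
      have hpi := Nat.prime_iff_prime_int.1 hpp
      have hpf : ¬ (p : ℤ) ∣ f := by
        intro h
        have h0 : (f : ZMod p) = 0 := (ZMod.intCast_zmod_eq_zero_iff_dvd f p).mpr h
        rw [ps_prime_eq f p hp2, (legendreSym.eq_zero_iff p f).mpr h0] at hps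
        omega
      have hpD : ¬ (p : ℤ) ∣ f * s ^ 2 := by
        intro h
        rcases hpi.dvd_or_dvd h with h | h
        · exact hpf h
        · exact hsp (hpi.dvd_of_dvd_pow h)
      obtain ⟨c₁, c₂, hRR, hc⟩ := hs
      have h1 : ps (f * s ^ 2) p = 1 := by
        apply ps_one_of _ p hpp hp2 hpD
        rw [← hc]
        exact square_mod hRR p hpp hp2 (by omega)
      rw [ps_left, sq, ps_left, hps] at h1
      nlinarith [mul_self_nonneg (ps s p)]

end Pool.Agent.T2H32.RRT
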