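import Pool.Agent.T2H32.RRT.Stm

/-!
# Package SQR: square roots modulo `N`
-/

set_option autoImplicit false

namespace Pool.Agent.T2H32.RRT

namespace SQRx

/-- Hensel's lemma for odd primes -/
theorem odd (p : ℕ) (hp : p.Prime) (hp2 : p ≠ 2) (D t : ℤ) (hD : ¬ (p : ℤ) ∣ D) (ht : (p : ℤ) ∣ D - t ^ 2) (k : ℕ) :
    ∃ s : ℤ, ((p : ℤ) ^ (k + 1)) ∣ s ^ 2 - D := by
  induction k with
  | zero => exact ⟨t, by rw [zero_add, pow_one, ← neg_sub]; exact (dvd_neg).mpr ht⟩
  | succ k ih =>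
    obtain ⟨s, m, hm⟩ := ih
    have hps : ¬ (p : ℤ) ∣ s := by
      intro h
      apply hD
      have h1 : (p : ℤ) ∣ s ^ 2 - D := by
        rw [hm, pow_succ]
        exact ⟨(p : ℤ) ^ k * m, by ring⟩
      have h2 : (p : ℤ) ∣ s ^ 2 := dvd_pow h (by norm_num)
      have h3 := dvd_sub h2 h1
      simpa using h3
    have hp' : Prime (p : ℤ) := Nat.prime_iff_prime_int.mp hp
    have h2s : ¬ (p : ℤ) ∣ 2 * s := by
      intro h
      rcases hp'.dvd_or_dvd h with h | h
      · have h4 : p ∣ 2 := by exact_mod_cast h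
        exact hp2 ((Nat.prime_dvd_prime_iff_eq hp Nat.prime_two).mp h4)
      · exact hps h
    have hco : IsCoprime (2 * s) (p : ℤ) := ((hp'.irreducible.coprime_iff_not_dvd).mpr h2s).symm
    obtain ⟨u, v, huv⟩ := hco
    refine ⟨s - (p : ℤ) ^ (k + 1) * m * u, ?_⟩
    refine ⟨m * v + (p : ℤ) ^ k * m ^ 2 * u ^ 2, ?_⟩
    have h5 : (s - (p : ℤ) ^ (k + 1) * m * u) ^ 2 - D =
        (s ^ 2 - D) - 2 * s * u * ((p : ℤ) ^ (k + 1) * m) + ((p : ℤ) ^ (k + 1)) ^ 2 * m ^ 2 * u ^ 2 := by ring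
    rw [h5, hm]
    have h6 : 2 * s * u = 1 - v * p := by linear_combination huv
    rw [h6]
    ring

theorem two (D : ℤ) (hD : D % 8 = 1) (k : ℕ) : ∃ s : ℤ, ((2 : ℤ) ^ (k + 3)) ∣ s ^ 2 - D := by
  induction k with
  | zero => exact ⟨1, by norm_num; omega⟩
  | succ k ih =>
    obtain ⟨s, m, hm⟩ := ih
    have hodd : s % 2 = 1 := by
      have h1 : (2 : ℤ) ∣ s ^ 2 - D := by
        rw [hm]
        exact ⟨(2 : ℤ) ^ (k + 2) * m, by ring⟩
      have h2 : s ^ 2 % 2 = 1 := by omega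
      rcases Int.emod_two_eq_zero_or_one s with h | h
      · exfalso
        obtain ⟨c, hc⟩ := Int.dvd_of_emod_eq_zero h
        rw [hc] at h2
        ring_nf at h2
        omega
      · exact h
    rcases Int.emod_two_eq_zero_or_one m with h | h
    · obtain ⟨c, hc⟩ := Int.dvd_of_emod_eq_zero h
      exact ⟨s, c, by rw [hm, hc]; ring⟩
    · obtain ⟨c, hc⟩ : (2 : ℤ) ∣ m + s := by omega
      refine ⟨s + 2 ^ (k + 2), c + 2 ^ k, ?_⟩
      have h5 : (s + 2 ^ (k + 2)) ^ 2 - D = (s ^ 2 - D) + 2 ^ (k + 3) * s + (2 ^ (k + 2)) ^ 2 := by ring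
      rw [h5, hm]
      have h6 : m = 2 * c - s := by linear_combination hc
      rw [h6]
      ring

end SQRx

theorem SQR_main : SQR := by
  intro n N D hN hp hD hq
  induction N using Nat.recOnPosPrimePosCoprime with
  | prime_pow p k hpp hk =>
    obtain ⟨k, rfl⟩ : ∃ j, k = j + 1 := ⟨k - 1, by omega⟩
    have hpn : p ≤ n := hp p hpp (dvd_pow_self p (by omega))
    by_cases h2 : p = 2
    · subst h2
      obtain ⟨s, hs⟩ := SQRx.two D hD k
      refine ⟨s, dvd_trans ?_ hs⟩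
      push_cast
      exact pow_dvd_pow 2 (by omega)
    · obtain ⟨h1, t, ht⟩ := hq p hpp h2 hpn
      obtain ⟨s, hs⟩ := SQRx.odd p hpp h2 D t h1 ht k
      exact ⟨s, by push_cast; exact hs⟩
  | zero => omega
  | one => exact ⟨0, by simp⟩
  | coprime a b ha hb hab iha ihb =>
    obtain ⟨s, hs⟩ := iha (by omega) (fun p hpp hd => hp p hpp (dvd_mul_of_dvd_left hd b))
    obtain ⟨t, ht⟩ := ihb (by omega) (fun p hpp hd => hp p hpp (dvd_mul_of_dvd_right hd a))
    have hco : IsCoprime (a : ℤ) (b : ℤ) := Nat.isCoprime_iff_coprime.mpr hab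
    obtain ⟨u, v, huv⟩ := id hco
    refine ⟨t * u * a + s * v * b, ?_⟩
    have h1 : (a : ℤ) ∣ (t * u * a + s * v * b) ^ 2 - D := by
      have e : (t * u * a + s * v * b) - s = (a : ℤ) * ((t - s) * u) := by
        linear_combination s * huv
      have : (t * u * a + s * v * b) ^ 2 - D = (s ^ 2 - D) + ((t * u * a + s * v * b) - s) * ((t * u * a + s * v * b) + s) := by ring
      rw [this, e]
      exact dvd_add hs ⟨((t - s) * u) * ((t * u * a + s * v * b) + s), by ring⟩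
    have h2 : (b : ℤ) ∣ (t * u * a + s * v * b) ^ 2 - D := by
      have e : (t * u * a + s * v * b) - t = (b : ℤ) * ((s - t) * v) := by
        linear_combination t * huv
      have : (t * u * a + s * v * b) ^ 2 - D = (t ^ 2 - D) + ((t * u * a + s * v * b) - t) * ((t * u * a + s * v * b) + t) := by ring
      rw [this, e]
      exact dvd_add ht ⟨((s - t) * v) * ((t * u * a + s * v * b) + t), by ring⟩
    push_cast
    exact hco.mul_dvd h1 h2

end Pool.Agent.T2H32.RRT
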