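import Pool.Agent.T2H32.RRT.Stm

/-!
# RRT: counting functions
-/

set_option autoImplicit false

namespace Pool.Agent.T2H32.RRT

open Finset Filter Topology Pool.Agent.R920.CH Pool.Agent.R852.LK

/-- the pairs of integers `c₁ = a + b`, `c₂ = a b` with `|c₁| ≤ H`, `|c₂| ≤ H²` -/
def SplitPairs (H : ℝ) : Set (ℤ × ℤ) :=
  {c | |(c.1 : ℝ)| ≤ H ∧ |(c.2 : ℝ)| ≤ H ^ 2 ∧ ∃ a b : ℤ, c.1 = a + b ∧ c.2 = a * b}

/-- the other pairs of integers with `|c₁| ≤ H`, `|c₂| ≤ H²` satisfying the Riemann-Roch conditions for `ℙ^n` -/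
def OtherPairs (n : ℕ) (H : ℝ) : Set (ℤ × ℤ) :=
  {c | |(c.1 : ℝ)| ≤ H ∧ |(c.2 : ℝ)| ≤ H ^ 2 ∧ RiemannRoch n (poly2 c.1 c.2) ∧
    ¬ ∃ a b : ℤ, c.1 = a + b ∧ c.2 = a * b}

/-- the nonsquare discriminants `D`, `|D| ≤ X`, of pairs satisfying the Riemann-Roch conditions -/
def OtherDiscs (n : ℕ) (X : ℝ) : Set ℤ :=
  {D | |(D : ℝ)| ≤ X ∧ ¬ IsSquare D ∧ ∃ c₁ c₂ : ℤ, RiemannRoch n (poly2 c₁ c₂) ∧ c₁ ^ 2 - 4 * c₂ = D}

lemma finite_box (H K : ℝ) : {c : ℤ × ℤ | |(c.1 : ℝ)| ≤ H ∧ |(c.2 : ℝ)| ≤ K}.Finite := by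
  have : {c : ℤ × ℤ | |(c.1 : ℝ)| ≤ H ∧ |(c.2 : ℝ)| ≤ K} ⊆
      ((Finset.Icc (-⌊H⌋) ⌊H⌋ ×ˢ Finset.Icc (-⌊K⌋) ⌊K⌋ : Finset (ℤ × ℤ)) : Set (ℤ × ℤ)) := by
    rintro ⟨a, b⟩ ⟨h1, h2⟩
    simp only at h1 h2
    rw [Finset.mem_coe, Finset.mem_product, Finset.mem_Icc, Finset.mem_Icc]
    have e1 : |a| ≤ ⌊H⌋ := Int.le_floor.2 (by push_cast; exact h1)
    have e2 : |b| ≤ ⌊K⌋ := Int.le_floor.2 (by push_cast; exact h2)
    exact ⟨abs_le.mp e1, abs_le.mp e2⟩
  exact (Finset.finite_toSet _).subset this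

lemma finite_other (n : ℕ) (H : ℝ) : (OtherPairs n H).Finite :=
  (finite_box H (H ^ 2)).subset fun _ hc => ⟨hc.1, hc.2.1⟩

lemma finite_split (H : ℝ) : (SplitPairs H).Finite :=
  (finite_box H (H ^ 2)).subset fun _ hc => ⟨hc.1, hc.2.1⟩

lemma finite_discs (n : ℕ) (X : ℝ) : (OtherDiscs n X).Finite := by
  have : OtherDiscs n X ⊆ ((Finset.Icc (-⌊X⌋) ⌊X⌋ : Finset ℤ) : Set ℤ) := by
    rintro D ⟨h1, -⟩
    rw [Finset.mem_coe, Finset.mem_Icc]
    have e1 : |D| ≤ ⌊X⌋ := Int.le_floor.2 (by push_cast; exact h1)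
    exact abs_le.mp e1
  exact (Finset.finite_toSet _).subset this

lemma other_le {n : ℕ} {H B : ℝ} (h : ∀ S : Finset (ℤ × ℤ),
    (∀ c ∈ S, |(c.1 : ℝ)| ≤ H ∧ |(c.2 : ℝ)| ≤ H ^ 2 ∧
      RiemannRoch n (poly2 c.1 c.2) ∧ ¬ ∃ a b : ℤ, c.1 = a + b ∧ c.2 = a * b) → (S.card : ℝ) ≤ B) :
    ((OtherPairs n H).ncard : ℝ) ≤ B := by
  rw [Set.ncard_eq_toFinset_card _ (finite_other n H)]
  refine h _ fun c hc => ?_
  rw [Set.Finite.mem_toFinset] at hc
  exact hc

lemma discs_le {n : ℕ} {X B : ℝ} (h : ∀ S : Finset ℤ,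
    (∀ D ∈ S, |(D : ℝ)| ≤ X ∧ ¬ IsSquare D ∧ IsDisc n D) → (S.card : ℝ) ≤ B) :
    ((OtherDiscs n X).ncard : ℝ) ≤ B := by
  rw [Set.ncard_eq_toFinset_card _ (finite_discs n X)]
  refine h _ fun D hD => ?_
  rw [Set.Finite.mem_toFinset] at hD
  exact hD

lemma le_other {n : ℕ} {H B : ℝ} (h : ∃ S : Finset (ℤ × ℤ),
    (∀ c ∈ S, |(c.1 : ℝ)| ≤ H ∧ |(c.2 : ℝ)| ≤ H ^ 2 ∧
      RiemannRoch n (poly2 c.1 c.2) ∧ ¬ ∃ a b : ℤ, c.1 = a + b ∧ c.2 = a * b) ∧ B ≤ (S.card : ℝ)) :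
    B ≤ ((OtherPairs n H).ncard : ℝ) := by
  obtain ⟨S, hS, hB⟩ := h
  refine hB.trans ?_
  have h1 : (S : Set (ℤ × ℤ)) ⊆ OtherPairs n H := fun c hc => hS c hc
  have h2 := Set.ncard_le_ncard h1 (finite_other n H)
  rw [Set.ncard_coe_finset] at h2
  exact_mod_cast h2

/-- the number of the split pairs is between `H² / 4` and `25 H²` -/
lemma split_bounds (H : ℝ) (hH : 1 ≤ H) :
    H ^ 2 / 4 ≤ ((SplitPairs H).ncard : ℝ) ∧ ((SplitPairs H).ncard : ℝ) ≤ 25 * H ^ 2 := by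
  classical
  have hH0 : 0 ≤ H := by linarith
  set N : ℕ := ⌊H⌋₊ with hN
  have hNH : (N : ℝ) ≤ H := Nat.floor_le hH0
  have hHN : H < N + 1 := Nat.lt_floor_add_one H
  constructor
  · -- the pairs with `0 ≤ b ≤ a`, `a + b ≤ N`
    set T : Finset (Σ _ : ℕ, ℕ) := (range (N + 1)).sigma fun m => range (m / 2 + 1) with hT
    set φ : (Σ _ : ℕ, ℕ) → ℤ × ℤ := fun x => ((x.1 : ℤ), ((x.1 : ℤ) - x.2) * x.2) with hφ
    have hinj : Set.InjOn φ (T : Set (Σ _ : ℕ, ℕ)) := by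
      rintro ⟨m, b⟩ h1 ⟨m', b'⟩ h2 h3
      rw [hT, Finset.mem_coe, Finset.mem_sigma, mem_range, mem_range] at h1 h2
      simp only [hφ, Prod.mk.injEq] at h3
      obtain ⟨h4, h5⟩ := h3
      have h6 : m = m' := by exact_mod_cast h4
      subst h6
      simp only at h1 h2
      have g1 : 2 * b ≤ m := by omega
      have g2 : 2 * b' ≤ m := by omega
      have h7 : b = b' := by
        by_contra hne
        rcases Nat.lt_or_gt_of_ne hne with h | h
        · have k1 : (b : ℤ) < b' := by exact_mod_cast h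
          have k2 : (2 : ℤ) * b' ≤ m := by exact_mod_cast g2
          nlinarith
        · have k1 : (b' : ℤ) < b := by exact_mod_cast h
          have k2 : (2 : ℤ) * b ≤ m := by exact_mod_cast g1
          nlinarith
      subst h7
      rfl
    have hsub : ((T.image φ : Finset (ℤ × ℤ)) : Set (ℤ × ℤ)) ⊆ SplitPairs H := by
      intro c hc
      rw [Finset.mem_coe, Finset.mem_image] at hc
      obtain ⟨⟨m, b⟩, h1, rfl⟩ := hc
      rw [hT, Finset.mem_sigma, mem_range, mem_range] at h1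
      simp only at h1
      have g1 : m ≤ N := by omega
      have g2 : 2 * b ≤ m := by omega
      have k1 : (m : ℝ) ≤ N := by exact_mod_cast g1
      have k2 : (2 : ℝ) * b ≤ m := by exact_mod_cast g2
      have k3 : (0 : ℝ) ≤ b := Nat.cast_nonneg _
      refine ⟨?_, ?_, (m : ℤ) - b, b, by simp [hφ], by simp [hφ]⟩
      · simp only [hφ]
        push_cast
        rw [abs_of_nonneg (Nat.cast_nonneg _)]
        linarith
      · simp only [hφ]
        push_cast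
        rw [abs_of_nonneg (mul_nonneg (by linarith) k3)]
        nlinarith
    have h1 := Set.ncard_le_ncard hsub (finite_split H)
    rw [Set.ncard_coe_finset, Finset.card_image_of_injOn hinj, hT, Finset.card_sigma] at h1
    have h2 : ∀ M : ℕ, (M : ℝ) * (M + 1) / 4 ≤ ((∑ m ∈ range M, (range (m / 2 + 1)).card : ℕ) : ℝ) := by
      intro M
      induction M with
      | zero => simp
      | succ M ih =>
        rw [sum_range_succ, card_range]
        push_cast at ih ⊢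
        have h3 : (M : ℝ) / 2 ≤ ((M / 2 : ℕ) : ℝ) + 1 / 2 := by
          have : M ≤ 2 * (M / 2) + 1 := by omega
          have : (M : ℝ) ≤ 2 * ((M / 2 : ℕ) : ℝ) + 1 := by exact_mod_cast this
          linarith
        simp only [card_range] at ih
        push_cast at ih
        simp only [card_range]
        push_cast
        nlinarith
    have h3 := h2 (N + 1)
    have h4 : ((∑ m ∈ range (N + 1), (range (m / 2 + 1)).card : ℕ) : ℝ) ≤ ((SplitPairs H).ncard : ℝ) := by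
      exact_mod_cast h1
    push_cast at h3 h4
    nlinarith
  · -- the pairs are determined by `c₁` and `|a - b|`
    have hsub : SplitPairs H ⊆ (((Finset.Icc (-(N : ℤ)) N ×ˢ Finset.Icc (0 : ℤ) (3 * N + 2)).image
        fun x : ℤ × ℤ => (x.1, (x.1 ^ 2 - x.2 ^ 2) / 4) : Finset (ℤ × ℤ)) : Set (ℤ × ℤ)) := by
      rintro ⟨c₁, c₂⟩ ⟨h1, h2, a, b, h3, h4⟩
      simp only at h1 h2 h3 h4
      rw [Finset.mem_coe, Finset.mem_image]
      refine ⟨(c₁, |a - b|), ?_, ?_⟩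
      · rw [Finset.mem_product, Finset.mem_Icc, Finset.mem_Icc]
        have e1 : |c₁| ≤ (N : ℤ) := by
          have g1 : c₁.natAbs ≤ ⌊H⌋₊ := by
            apply Nat.le_floor
            rw [Nat.cast_natAbs, Int.cast_abs]
            exact h1
          rw [Int.abs_eq_natAbs]
          exact_mod_cast g1
        refine ⟨abs_le.mp e1, abs_nonneg _, ?_⟩
        have e2 : (((|a - b| : ℤ)) : ℝ) ^ 2 ≤ 5 * H ^ 2 := by
          have g1 : (((|a - b| : ℤ)) : ℝ) ^ 2 = (c₁ : ℝ) ^ 2 - 4 * c₂ := by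
            rw [h3, h4]
            push_cast
            rw [sq_abs]
            ring
          rw [g1]
          have g2 : (c₁ : ℝ) ^ 2 ≤ H ^ 2 := by
            rw [← sq_abs]; exact pow_le_pow_left₀ (abs_nonneg _) h1 2
          have g3 := (abs_le.mp h2).1
          linarith
        have e3 : (((|a - b| : ℤ)) : ℝ) < 3 * N + 3 := by
          by_contra hcon
          push Not at hcon
          have g1 : (3 * H) ^ 2 ≤ (((|a - b| : ℤ)) : ℝ) ^ 2 := by
            apply pow_le_pow_left₀ (by linarith)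
            linarith
          nlinarith
        have e4 : |a - b| < 3 * (N : ℤ) + 3 := by exact_mod_cast e3
        show |a - b| ≤ 3 * (N : ℤ) + 2
        omega
      · simp only [sq_abs, Prod.mk.injEq, true_and]
        rw [h3, h4]
        have : (a + b) ^ 2 - (a - b) ^ 2 = 4 * (a * b) := by ring
        rw [this, Int.mul_ediv_cancel_left _ (by norm_num)]
    have h1 := Set.ncard_le_ncard hsub (Finset.finite_toSet _)
    rw [Set.ncard_coe_finset] at h1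
    have h2 := h1.trans Finset.card_image_le
    rw [Finset.card_product, Int.card_Icc, Int.card_Icc] at h2
    have e1 : ((N : ℤ) + 1 - -(N : ℤ)).toNat = 2 * N + 1 := by omega
    have e2 : (3 * (N : ℤ) + 2 + 1 - 0).toNat = 3 * N + 3 := by omega
    rw [e1, e2] at h2
    have h3 : ((SplitPairs H).ncard : ℝ) ≤ (2 * N + 1) * (3 * N + 3) := by exact_mod_cast h2
    have hN0 : (0 : ℝ) ≤ N := Nat.cast_nonneg _
    nlinarith

end Pool.Agent.T2H32.RRT
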