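import Pool.Agent.R852.LK.Pairs

/-!
# RRT: the transition for the Riemann-Roch conditions of bundles of rank two (MP_b01859_ag, hard)

`S_n` = the set of the pairs `(c₁, c₂)` of integers which satisfy the Riemann-Roch (Schwarzenberger) conditions for `ℙ^n`.
The starting file `FewExceptionalClasses` shows that for `H ≤ n ^ A` almost all pairs in `S_n` with `|c₁| ≤ H`, `|c₂| ≤ H²` are
split (`c₁ = a + b`, `c₂ = a b`). Here:

* the same up to the height `H = exp (n ^ (1/3 - ε))` (`CNT`, `PRS`), and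
* for all `H ≥ 2 ^ ((1 + ε) π(n))` the non-split pairs dominate: there are at least `H ^ (3 - δ) / 2 ^ π(n)` of them (`LOW`).

Everything below uses the library `Pool.Agent.R852.LK` (`ps D m` = Jacobi symbol `(D / m)` for odd `m`, `0` for even `m`;
`PR y` = the odd primes `< y`; `IsDisc n D`) and `Pool.Agent.R920.CH` (`RiemannRoch`, `poly2`). READ
`R852/LK/Per.lean`, `Cnt.lean`, `Core.lean`, `Fin.lean`, `Pairs.lean` first: several packages are small changes of proofs there.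

Each package `X` is a file `Pool/Agent/T2H32/RRT/X.lean` with `theorem X.main : <statement given in the docstring>` in the
namespace `Pool.Agent.T2H32.RRT`.
-/

set_option autoImplicit false

namespace Pool.Agent.T2H32.RRT

open Finset Filter Topology Pool.Agent.R920.CH Pool.Agent.R852.LK

/-- **PV** (30 min). Package: `theorem PV_main : PV`.

Proof. `P = 4 * D.natAbs`. Define the Dirichlet character `χ : DirichletCharacter ℂ P` by `χ a = (ps D a.val : ℂ)`: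
multiplicative by `ps_mul` and `ps_mod`; `0` on nonunits (`a.val` even or not coprime to `D`, then the Jacobi symbol is `0`);
`χ 1 = 1` by `ps_one` (`P ≥ 4 > 1`). Then `χ (m : ZMod P) = ps D m` for all `m` by `ps_mod` (`ZMod.val_natCast`). It is
not `1` by `exists_neg` in `LK/Per.lean` (there is an odd `l` with `jacobiSym D l = -1`). Apply
`Pool.Agent.H38R2.CG.PVh.sum_le P χ (by omega) hne (M - 1)` (file `Pool/Agent/H38R2/CG/PV.lean`: Polya-Vinogradov for all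
nonprincipal characters, `4 √q (1 + log q)`), `√(4 |D|) = 2 √|D|`, and `ps D 0 = 0`. -/
def PV : Prop := ∀ D : ℤ, D ≠ 0 → ¬ IsSquare D → ∀ M : ℕ,
  |((∑ m ∈ range M, ps D m : ℤ) : ℝ)| ≤ 8 * √|(D : ℝ)| * (1 + Real.log (4 * |(D : ℝ)|))

/-- **INE** (20 min). Package: `theorem INE_main : INE`.

Proof. Copy the proof of `Pool.Agent.R852.LK.ineq` (`LK/Core.lean`), with `4 * X ^ 2` replaced by `W` and `sum_bound` by the
hypothesis; it gives, with `R = |F|`, `K = |Q|`, `(R (K/2)^B)^2 ≤ K^B (B^B (R (y^B + 1) + R^2 W))`. If `K = 0` and `B > 0` the claim is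
trivial (left side `0`); otherwise divide by `K^B`: `R^2 K^B ≤ (4B)^B (2 R y^B + R^2 W)` (`y^B + 1 ≤ 2 y^B`), and
`(4B)^B W ≤ K^B / 2` gives `R^2 K^B / 2 ≤ 2 (4B)^B R y^B`. Divide by `R` (trivial if `R = 0`). -/
def INE : Prop := ∀ (B y : ℕ) (Q : Finset ℕ), 1 ≤ y → (∀ p ∈ Q, p.Prime) → (∀ p ∈ Q, p ≤ y) →
  ∀ (F : Finset ℤ) (W : ℝ), 0 ≤ W →
  (∀ f ∈ F, ∀ g ∈ F, f ≠ g → ∀ M : ℕ, |((∑ m ∈ range M, ps (f * g) m : ℤ) : ℝ)| ≤ W) →
  (∀ f ∈ F, (Q.card : ℝ) / 2 ≤ ∑ p ∈ Q, (ps f p : ℝ)) →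
  2 * (4 * (B : ℝ)) ^ B * W ≤ (Q.card : ℝ) ^ B →
  (F.card : ℝ) * (Q.card : ℝ) ^ B ≤ 4 * (4 * (B : ℝ)) ^ B * (y : ℝ) ^ B

/-- a set of integers of absolute value at most `Y`, in different classes modulo squares, the symbols of which at the odd
primes `p < y` are mostly `1` -/
def FewP (y : ℕ) (F : Finset ℤ) (Y : ℝ) : Prop :=
  (∀ f ∈ F, f ≠ 0 ∧ |(f : ℝ)| ≤ Y) ∧ (∀ f ∈ F, ∀ g ∈ F, f ≠ g → ¬ IsSquare (f * g)) ∧
  (∀ f ∈ F, ((PR y).card : ℝ) / 2 ≤ ∑ p ∈ PR y, (ps f p : ℝ))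

/-- **FA** (30 min). Package: `theorem FA_main (hPV : PV) (hI : INE) : FA`.

Proof. As `Pool.Agent.R852.LK.core` (`LK/Core.lean`), from the line `hmain` on, but simpler: apply `INE` with the constant
`B = ⌈A⌉₊ + 3`, `Q = PR y`, `W = 8 Y (1 + log (4 Y^2))`, `Y = y^A` (`√|f g| ≤ Y`; `log (4 |f g|) ≤ log (4 Y^2)`), so that
`W ≤ y^(A+1)` for large `y`; `K = |PR y| ≥ y^(1-δ)` for large `y` (`card_PR`), `δ = min ε 1 / (2 B)`. Then
`K^B ≥ y^(B - δB) ≥ y^(A + 5/2) ≥ 2 (4B)^B W`, and `|F| ≤ 4 (4B)^B y^B / K^B ≤ 4 (4B)^B y^(δB) ≤ y^ε`. -/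
def FA : Prop := ∀ A ε : ℝ, 0 ≤ A → 0 < ε → ∀ᶠ y : ℕ in atTop, ∀ F : Finset ℤ,
  FewP y F ((y : ℝ) ^ A) → (F.card : ℝ) ≤ (y : ℝ) ^ ε

/-- **FB** (60 min). Package: `theorem FB_main (hPV : PV) (hI : INE) : FB`.

Proof. Choose `0 < δ < (1 - θ) / 4` and `A ≥ 1` with `(θ + 2δ) ((1 + 2δ) / (1 - θ - 2δ) + 1 / A) + 1 / A < κ`. Let `L = log Y`, so
`A log y ≤ L ≤ y^θ`. Let `B = ⌈(1 + 2δ) L / ((1 - θ - 2δ) log y)⌉₊` (`≥ 1`, and `4 B ≤ y^(θ+δ)` for large `y`). Apply `INE` with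
`Q = PR y`, `K = |PR y| ≥ y^(1-δ)` (`card_PR`), `W = 8 Y (1 + log (4 Y^2))` (`√|f g| ≤ Y`); for large `y` (so large `L`)
`2 W ≤ exp ((1 + 2δ) L)`. The condition of `INE` holds:
`K^B ≥ y^((1-δ)B)`, `(4B)^B ≤ y^((θ+δ)B)`, and `y^((1-θ-2δ)B) = exp ((1-θ-2δ) B log y) ≥ exp ((1+2δ) L) ≥ 2 W`.
Hence `|F| ≤ 4 (4B)^B y^B / K^B ≤ 4 y^((θ+2δ)B)`, and `B log y ≤ (1+2δ) L / (1-θ-2δ) + log y ≤ L ((1+2δ)/(1-θ-2δ) + 1/A)`. So
`log |F| ≤ log 4 + (θ+2δ) ((1+2δ)/(1-θ-2δ) + 1/A) L ≤ κ L`, as `log 4 ≤ L / A` for large `y`. -/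
def FB : Prop := ∀ θ κ : ℝ, 0 < θ → θ < 1 → θ / (1 - θ) < κ → ∃ A : ℝ, 0 < A ∧ ∀ᶠ y : ℕ in atTop,
  ∀ Y : ℝ, (y : ℝ) ^ A ≤ Y → Y ≤ Real.exp ((y : ℝ) ^ θ) → ∀ F : Finset ℤ, FewP y F Y → (F.card : ℝ) ≤ Y ^ κ

/-- **GOO** (30 min). Package: `theorem GOO_main : GOO`.

Proof. (Compare the step `hfew` in the proof of `LK.core`.) Let `K = |PR n| ≥ n^(1-δ)`, `δ = (1 - θ) / 2` (`card_PR`; if
`θ ≤ 0` reduce to `θ = 1/2`: `exp (n^θ) ≤ exp (n^(1/2))`). Let `E` be the set of the `p ∈ PR n` which divide `f s^2`; their product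
divides `f s^2`, so `2^|E| ≤ |f s^2| ≤ exp (n^θ)` and `|E| ≤ 2 n^θ ≤ K / 4` for large `n`. For `p ∈ PR n \ E` the number `f s^2` is
a square modulo `p` by `square_mod` (from `IsDisc`; see its use in `LK/Fin.lean`, `count`), so `ps (f s^2) p = 1` (`ps_one_of`), and
`ps (f s^2) p = ps f p * (ps s p)^2` (`ps_left`), so `ps f p = 1`. So the sum is at least `K - 2 |E| ≥ K / 2`. -/
def GOO : Prop := ∀ θ : ℝ, θ < 1 → ∀ᶠ n : ℕ in atTop, ∀ f s : ℤ, f * s ^ 2 ≠ 0 →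
  |((f * s ^ 2 : ℤ) : ℝ)| ≤ Real.exp ((n : ℝ) ^ θ) → IsDisc n (f * s ^ 2) →
    ((PR n).card : ℝ) / 2 ≤ ∑ p ∈ PR n, (ps f p : ℝ)

/-- **SMA** (30 min). Package: `theorem SMA_main : SMA`.

Proof. `P` = the product of the `p ∈ PR n` with `ps f p = -1`. If `P < n^12`, then `Pool.Agent.R852.BC.main_sub 2 1 12 ε` (file
`R852/BC/Fin.lean`) with `D := f`, `B := P` shows that `f` is a square, a contradiction: for an odd prime `p < n` not dividing `P`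
either `p ∣ f` (take `t = 0`) or `ps f p = 1` and `f` is a square modulo `p` (Legendre symbol). If `IsDisc n (f s^2)` and `p ∣ P`,
then `p ∣ s`: otherwise, as `p ∤ f`, `f s^2` is a square modulo `p` (`square_mod`), so `ps (f s^2) p = 1` (`ps_one_of`) and
`ps f p = 1` (`ps_left`). The primes being distinct, `P ∣ s` (`Finset.prod_primes_dvd`). -/
def SMA : Prop := ∀ ε : ℝ, 0 < ε → ∀ᶠ n : ℕ in atTop, ∀ f : ℤ, ¬ IsSquare f →
  |(f : ℝ)| ≤ (n : ℝ) ^ (4 * Real.exp (1 / 2) - ε) →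
    ∃ P : ℕ, (n : ℝ) ^ (12 : ℝ) ≤ P ∧ ∀ s : ℤ, IsDisc n (f * s ^ 2) → (P : ℤ) ∣ s

/-- **CNT** (60 min). Package: `theorem CNT_main (hA : FA) (hB : FB) (hG : GOO) (hS : SMA) : CNT`.

Proof. We may assume `ε ≤ 1/12` (the statement for a smaller `ε` is stronger). `θ = 1/3 - ε/2`, so `θ / (1 - θ) < 1/2`; choose
`η > 0` with `θ / (1 - θ) < 1/2 - η =: κ`, and `A` from `FB` for `θ, κ`, enlarged so that `A η ≥ 6` (the conclusion of `FB`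
remains true for larger `A`). Write every `D ∈ S` as `D = f s^2`, `f` squarefree, `s > 0` (`sqf`, with `choose!`, as in the proof of
`LK.count`): maps `κ(D) = f`, `σ(D) = s`. `F = S.image κ`. Different `f, g ∈ F` have `f g` nonsquare (`sq_prod`), `|f| ≤ X`, and the
sum condition of `FewP n` holds by `GOO`. No `f ∈ F` is a square (as `D` is not). For each `f` the number of the `D ∈ S` with
`κ(D) = f` is at most `√X / √|f|` (`fib`). Split `F`: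
(1) `|f| ≤ n^(4√e - ε)`, at most `3 n^7` values `f` (`4√e < 7`): by `SMA` all `σ(D)` are multiples of some `P ≥ n^12`, and
`σ(D) ≤ √X`, so there are at most `√X / n^12` such `D` for each `f`; together at most `3 √X / n^5`.
(2) `n^(4√e - ε) < |f| ≤ n^A`: at most `n^(ε/4)` values by `FA`, each has at most `√X / n^(2√e - ε/2)` numbers `D`.
(3) `|f| > n^A`: for `j = Nat.log 2 f.natAbs` (so `2^j ≤ |f| < 2^(j+1)`) `FB` with `Y = 2^(j+1)` (`n^A ≤ Y ≤ 2 X ≤ exp (n^θ)`) gives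
at most `2^((j+1)κ)` values `f`, so at most `√X 2^((j+1)κ) 2^(-j/2) ≤ 2 √X 2^(-ηj) ≤ 4 √X n^(-Aη) ≤ 4 √X n^(-6)` numbers `D`; there are at
most `n` values of `j` (`2^j ≤ X ≤ exp (n^(1/3))`). Together at most `4 √X / n^5`.
Sum: `≤ √X / n^(2√e - ε)` for large `n` (`2√e < 3.4`). -/
def CNT : Prop := ∀ ε : ℝ, 0 < ε → ∀ᶠ n : ℕ in atTop, ∀ X : ℝ, 0 ≤ X →
  X ≤ Real.exp ((n : ℝ) ^ (1 / 3 - ε)) → ∀ S : Finset ℤ,
    (∀ D ∈ S, |(D : ℝ)| ≤ X ∧ ¬ IsSquare D ∧ IsDisc n D) →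
      (S.card : ℝ) ≤ √X / (n : ℝ) ^ (2 * Real.exp (1 / 2) - ε)

/-- **PRS** (15 min). Package: `theorem PRS_main (h : CNT) : PRS`.

Proof. Copy `Pool.Agent.R852.LK.pairs` (`LK/Pairs.lean`); only `hX` changes: `5 H^2 ≤ exp (2 + 2 n^(1/3 - ε)) ≤ exp (n^(1/3 - ε/2))` for
large `n` if `ε < 1/3`, say (`CNT` is used with `ε / 2`); for `ε ≥ 1/3` use the result for `1/6`. -/
def PRS : Prop := ∀ ε : ℝ, 0 < ε → ∀ᶠ n : ℕ in atTop, ∀ H : ℝ, 1 ≤ H →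
  H ≤ Real.exp ((n : ℝ) ^ (1 / 3 - ε)) → ∀ S : Finset (ℤ × ℤ),
    (∀ c ∈ S, |(c.1 : ℝ)| ≤ H ∧ |(c.2 : ℝ)| ≤ H ^ 2 ∧
      RiemannRoch n (poly2 c.1 c.2) ∧ ¬ ∃ a b : ℤ, c.1 = a + b ∧ c.2 = a * b) →
      (S.card : ℝ) ≤ H ^ 2 / (n : ℝ) ^ (2 * Real.exp (1 / 2) - ε)

/-- **CLS** (20 min). Package: `theorem CLS_main (hA : FA) (hB : FB) (hG : GOO) : CLS`.

Proof. `A` from `FB` for `(θ, κ)`. The sum condition of `FewP n` follows from `GOO` with `s = 1`. If `X ≥ n^A` use `FB` with `Y = X`;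
if `X < n^A` use `FA` with `A`, `ε`. (`X^κ ≥ 1`, `n^ε ≥ 1`.) -/
def CLS : Prop := ∀ θ κ ε : ℝ, 0 < θ → θ < 1 → θ / (1 - θ) < κ → 0 < ε → ∀ᶠ n : ℕ in atTop, ∀ X : ℝ, 1 ≤ X →
  X ≤ Real.exp ((n : ℝ) ^ θ) → ∀ F : Finset ℤ, (∀ D ∈ F, D ≠ 0 ∧ |(D : ℝ)| ≤ X ∧ IsDisc n D) →
    (∀ D ∈ F, ∀ E ∈ F, D ≠ E → ¬ IsSquare (D * E)) → (F.card : ℝ) ≤ (n : ℝ) ^ ε * X ^ κ

/-- **LOC** (45 min). Package: `theorem LOC_main : LOC`.

Proof. Let `f` be integer valued of degree at most `n`; then `n! f = g` has integral coefficients (`f = ∑_{k ≤ n} z_k binom(x, k)` with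
integers `z_k`; for instance Newton interpolation at `0, 1, …, n`, or Mathlib's `Polynomial` / `Ring.choose` / `Lagrange` tools, or the
existing lemmas in `Pool/Agent/R920/CH/Bin.lean`). Let `x, y` be the complex roots (`roots2`), `x + y = c₁`, `x y = c₂`, and put `b = c₁ - a`; then
`c₂ ≡ a b` modulo `n!`. The numbers `s_k(c₁, c₂)`, `s_0 = 2`, `s_1 = c₁`, `s_(k+2) = c₁ s_(k+1) - c₂ s_k`, are integers with
`x^k + y^k = s_k(c₁, c₂)` and `a^k + b^k = s_k(c₁, a b)`, and `s_k(c₁, c₂) ≡ s_k(c₁, a b)` modulo `n!` by induction. So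
`g(x) + g(y) = ∑ g_k s_k(c₁, c₂)` is an integer `≡ g(a) + g(b) = n! (f(a) + f(b)) ≡ 0` modulo `n!`; divide by `n!`. -/
def LOC : Prop := ∀ (n : ℕ) (c₁ c₂ a : ℤ), (n.factorial : ℤ) ∣ a ^ 2 - c₁ * a + c₂ →
  RiemannRoch n (poly2 c₁ c₂)

/-- **SQR** (45 min). Package: `theorem SQR_main : SQR`.

Proof. Induction over `N` by prime powers (`Nat.recOnPosPrimePosCoprime` or `induction_on_primes`): coprime moduli by the Chinese
remainder theorem (`Int.ModEq` / `Nat.chineseRemainder`), prime powers by Hensel: `p` odd: from `p^k ∣ s^2 - D`, `k ≥ 1`, `p ∤ D`, so `p ∤ 2 s`,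
take `s + p^k u` with `2 s u ≡ -(s^2 - D)/p^k` modulo `p`. `p = 2`: for `k ≤ 3` take `s = 1`; from `2^k ∣ s^2 - D`, `k ≥ 3`, `s` is
odd and one of `s`, `s + 2^(k-1)` works modulo `2^(k+1)`. -/
def SQR : Prop := ∀ (n N : ℕ) (D : ℤ), 0 < N → (∀ p : ℕ, p.Prime → p ∣ N → p ≤ n) → D % 8 = 1 →
  (∀ p : ℕ, p.Prime → p ≠ 2 → p ≤ n → ¬ (p : ℤ) ∣ D ∧ ∃ t : ℤ, (p : ℤ) ∣ D - t ^ 2) →
    ∃ s : ℤ, (N : ℤ) ∣ s ^ 2 - D

/-- **PIG** (45 min). Package: `theorem PIG_main : PIG`.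

Proof. Let `T` be the set of the primes in `(n, Y]` (so odd, as `n ≥ 2`), `m = |T|`. To `q ∈ T` assign its class modulo `8` (four odd
classes) and the Legendre symbols `(q / p)`, `p ≤ n` odd prime, which are `± 1`, as `p ≠ q`: this is a map from `T` to a set with
`4 · 2^(π(n) - 1) = 2^(π(n) + 1)` elements (for instance `{1,3,5,7} × (odd primes ≤ n → {±1})`). By Cauchy-Schwarz
(`sq_sum_le_card_mul_sum_sq`) there are at least `m^2 / 2^(π(n)+1)` ordered pairs `(q, q')` in `T` with the same value, so at least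
`(m^2 / 2^(π(n)+1) - m) / 2` pairs `q < q'`. `S` = the set of the products `q q'`; the product determines the pair `q < q'`. `q q'` is not
a square, `≡ 1` modulo `8`, at most `Y^2`, not divisible by `p ≤ n`, and `(q q' / p) = (q / p)^2 = 1`. -/
def PIG : Prop := ∀ n Y : ℕ, 2 ≤ n → ∃ S : Finset ℤ,
  (∀ D ∈ S, 0 < D ∧ D ≤ (Y : ℤ) ^ 2 ∧ ¬ IsSquare D ∧ D % 8 = 1 ∧
    ∀ p : ℕ, p.Prime → p ≠ 2 → p ≤ n → ¬ (p : ℤ) ∣ D ∧ ∃ t : ℤ, (p : ℤ) ∣ D - t ^ 2) ∧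
  ((((Icc (n + 1) Y).filter Nat.Prime).card : ℝ) ^ 2 / 2 ^ (Nat.primeCounting n + 1) -
    (((Icc (n + 1) Y).filter Nat.Prime).card : ℝ)) / 2 ≤ S.card

/-- **LOW** (60 min). Package: `theorem LOW_main (h1 : LOC) (h2 : SQR) (h3 : PIG) : LOW`.

Proof. We may assume `δ ≤ 1`. `Y = ⌊H⌋₊`, `K = 2^(π(n)+1)`, `m` = the number of primes in `(n, Y]`. By `card_PP` (`R852/LK/Cnt.lean`)
`π(Y) ≥ Y^(1-δ')` for large `Y`, and `H ≥ 2^π(n)`, `π(n) → ∞` faster than `√n` (`card_PP`), so `n` is negligible and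
`m ≥ H^(1-δ') / 2`, where `δ' = δ / 8`. As `H ≥ 2^((1+δ)π(n))` and `(1+δ)(1-δ') > 1`, `m ≥ 2 K` for large `n`, and `PIG` gives a set `S₀` of
at least `m^2 / (4 K) ≥ H^(2-2δ') / (32 · 2^π(n))` numbers `D`. For every odd `c₁` with `|c₁| ≤ H` (at least `H / 2` numbers) and
`D ∈ S₀` let `c₂ = (c₁^2 - D) / 4`, an integer (`c₁^2 ≡ 1 ≡ D` modulo `8`), `|c₂| ≤ H^2`. `SQR` with `N = 4 n!` gives `s` with
`4 n! ∣ s^2 - D`; `s` is odd, `a = (c₁ + s) / 2`, `4 (a^2 - c₁ a + c₂) = s^2 - D`, so `LOC` applies. The pair is not split, as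
`c₁^2 - 4 c₂ = D` is not a square (`(a - b)^2`). The map `(c₁, D) ↦ (c₁, c₂)` is injective. So there are at least
`H^(3-2δ') / (64 · 2^π(n)) ≥ H^(3-δ) / 2^π(n)` pairs. -/
def LOW : Prop := ∀ δ : ℝ, 0 < δ → ∀ᶠ n : ℕ in atTop, ∀ H : ℝ,
  (2 : ℝ) ^ ((1 + δ) * (Nat.primeCounting n : ℝ)) ≤ H → ∃ S : Finset (ℤ × ℤ),
    (∀ c ∈ S, |(c.1 : ℝ)| ≤ H ∧ |(c.2 : ℝ)| ≤ H ^ 2 ∧
      RiemannRoch n (poly2 c.1 c.2) ∧ ¬ ∃ a b : ℤ, c.1 = a + b ∧ c.2 = a * b) ∧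
    H ^ (3 - δ) / (2 : ℝ) ^ (Nat.primeCounting n : ℝ) ≤ S.card

end Pool.Agent.T2H32.RRT
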